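import Mathlib
import Pool.Agent.Lib.FermX.Main

open Filter

namespace Pool.Agent.Results.MP_2ec8a3_nt.FermatCatalan

/-- `(a, b, c)` is an abc-triple: pairwise coprime positive integers with `a + b = c`. -/
def AbcTriple (a b c : ℕ) : Prop :=
  0 < a ∧ 0 < b ∧ 0 < c ∧ a.Coprime b ∧ a.Coprime c ∧ b.Coprime c ∧ a + b = c

/-- The abc-triples `(A x ^ p, B y ^ q, C z ^ r)` for given coefficients `A, B, C`, where
`1 ≤ x, y, z ≤ Y` and where the exponents `p, q, r ≥ M` are otherwise arbitrary. -/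
def fermatTriples (M A B C Y : ℕ) : Set (ℕ × ℕ × ℕ) :=
  {t | AbcTriple t.1 t.2.1 t.2.2 ∧ ∃ x y z p q r : ℕ, 1 ≤ x ∧ x ≤ Y ∧ 1 ≤ y ∧ y ≤ Y ∧ 1 ≤ z ∧ z ≤ Y ∧
    M ≤ p ∧ M ≤ q ∧ M ≤ r ∧ t.1 = A * x ^ p ∧ t.2.1 = B * y ^ q ∧ t.2.2 = C * z ^ r}

/-- `m = A x ^ p` with `A` odd, `A ≤ Y` and `1 ≤ x ≤ Y`; the exponent `p` is arbitrary. -/
def TwistedPower (Y m : ℕ) : Prop :=
  ∃ A x p : ℕ, Odd A ∧ A ≤ Y ∧ 1 ≤ x ∧ x ≤ Y ∧ m = A * x ^ p

/-- The abc-triples `(A x ^ p, B y ^ q, C z ^ r)`, where `A, B, C ≤ Y` are arbitrary odd numbers,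
`1 ≤ x, y, z ≤ Y`, where the exponents `p, q, r` are arbitrary, and where `C z ^ r ≥ Y ^ M`. -/
def twistedTriples (M Y : ℕ) : Set (ℕ × ℕ × ℕ) :=
  {t | AbcTriple t.1 t.2.1 t.2.2 ∧ TwistedPower Y t.1 ∧ TwistedPower Y t.2.1 ∧
    TwistedPower Y t.2.2 ∧ Y ^ M ≤ t.2.2}

/-- `m` is a perfect power `x ^ p` with exponent `p ≥ k`. -/
def HighPower (k m : ℕ) : Prop := ∃ x p : ℕ, k ≤ p ∧ m = x ^ p

/-- The abc-triples `(a, b, c)` with `c ≤ X` all of whose members are perfect powers with exponents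
at least `k` (the three exponents may differ). -/
def highTriples (k X : ℕ) : Set (ℕ × ℕ × ℕ) :=
  {t | AbcTriple t.1 t.2.1 t.2.2 ∧ HighPower k t.1 ∧ HighPower k t.2.1 ∧ HighPower k t.2.2 ∧
    t.2.2 ≤ X}

open Pool.Agent.Lib

private theorem finite_of_le (Z : Set (ℕ × ℕ × ℕ)) (X : ℝ)
    (hX : ∀ T : Finset (ℕ × ℕ × ℕ), (∀ t ∈ T, t ∈ Z) → (T.card : ℝ) ≤ X) :
    Z.Finite ∧ (Z.ncard : ℝ) ≤ X := by
  have hfin : Z.Finite := by
    by_contra hinf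
    obtain ⟨F, hF, hc⟩ := (Set.not_finite.mp hinf).exists_subset_card_eq (⌊X⌋₊ + 1)
    have h1 := hX F (fun t ht => hF ht)
    have h2 := Nat.lt_floor_add_one X
    rw [hc] at h1
    push_cast at h1
    linarith
  refine ⟨hfin, ?_⟩
  rw [Set.ncard_eq_toFinset_card Z hfin]
  exact hX _ fun t ht => hfin.mem_toFinset.mp ht

/-- For every `ε > 0` there is `M` such that for all large `Y`:
* for all odd `A, B, C ≤ Y` (`A = B = C = 1` is the Beal equation) there are at most `Y ^ ε`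
  abc-triples `(A x ^ p, B y ^ q, C z ^ r)` with `x, y, z ≤ Y` and exponents `p, q, r ≥ M`, without
  any upper bound for the exponents;
* more generally, at most `Y ^ ε` abc-triples `(A x ^ p, B y ^ q, C z ^ r)` with arbitrary exponents
  and arbitrary odd `A, B, C ≤ Y` and `x, y, z ≤ Y` violate `C z ^ r < Y ^ M`;
* for all `k ≥ M` and all `X ≥ Y ^ k` at most `X ^ (ε / k)` abc-triples `(a, b, c)` with `c ≤ X`
  consist of three perfect powers with exponents at least `k`. -/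
theorem result : ∀ ε : ℝ, 0 < ε → ∃ M : ℕ, ∀ᶠ Y : ℕ in atTop,
    (∀ A B C : ℕ, Odd A → Odd B → Odd C → A ≤ Y → B ≤ Y → C ≤ Y →
      (fermatTriples M A B C Y).Finite ∧ ((fermatTriples M A B C Y).ncard : ℝ) ≤ (Y : ℝ) ^ ε) ∧
    ((twistedTriples M Y).Finite ∧ ((twistedTriples M Y).ncard : ℝ) ≤ (Y : ℝ) ^ ε) ∧
    ∀ k X : ℕ, M ≤ k → Y ^ k ≤ X →
      (highTriples k X).Finite ∧ ((highTriples k X).ncard : ℝ) ≤ (X : ℝ) ^ (ε / k) := by
  intro ε hε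
  obtain ⟨M1, Y1, hY1, h1⟩ := FermX.gfm_count ε hε
  obtain ⟨M2, Y2, hY2, h2⟩ := FermX.gf_count ε hε
  obtain ⟨M3, Y3, hY3, h3⟩ := FermX.pow_count ε hε
  refine ⟨max M1 (max M2 M3), ?_⟩
  filter_upwards [eventually_ge_atTop Y1, eventually_ge_atTop Y2, eventually_ge_atTop Y3] with
    Y hYa hYb hYc
  have hM1 : M1 ≤ max M1 (max M2 M3) := le_max_left _ _
  have hM2 : M2 ≤ max M1 (max M2 M3) := (le_max_left _ _).trans (le_max_right _ _)
  have hM3 : M3 ≤ max M1 (max M2 M3) := (le_max_right _ _).trans (le_max_right _ _)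
  refine ⟨fun A B C hA hB hC hAY hBY hCY => finite_of_le _ _ ?_, finite_of_le _ _ ?_,
    fun k X hk hX => finite_of_le _ _ ?_⟩
  · intro T hT
    refine h1 Y hYa A B C hA hB hC hAY hBY hCY T fun t ht => ?_
    obtain ⟨g, x, y, z, p, q, r, x1, x2, y1, y2, z1, z2, hp, hq, hr, ea, eb, ec⟩ := hT t ht
    exact ⟨g, x, y, z, p, q, r, x1, x2, y1, y2, z1, z2, hM1.trans hp, hM1.trans hq, hM1.trans hr,
      ea, eb, ec⟩
  · intro T hT
    refine h2 Y hYb T fun t ht => ?_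
    obtain ⟨g, ha, hb, hc, hM⟩ := hT t ht
    exact ⟨⟨g, ha, hb, hc⟩, (Nat.pow_le_pow_right (by omega) hM2).trans hM⟩
  · intro T hT
    refine h3 k (hM3.trans hk) X ((Nat.pow_le_pow_left hYc k).trans hX) T fun t ht => ?_
    obtain ⟨g, ha, hb, hc, hM⟩ := hT t ht
    exact ⟨g, hM, ha, hb, hc⟩

end Pool.Agent.Results.MP_2ec8a3_nt.FermatCatalan
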