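import Mathlib
import Pool.Agent.Lib.FewX.TransB

open Filter

namespace Pool.Agent.Results.MP_2ec8a3_nt.FewPowers

/-- The radical of `n`: the product of the distinct primes dividing `n`. -/
def rad (n : ℕ) : ℕ := ∏ p ∈ n.primeFactors, p

/-- `(a, b, c)` is an abc-triple: pairwise coprime positive integers with `a + b = c`. -/
def AbcTriple (a b c : ℕ) : Prop :=
  0 < a ∧ 0 < b ∧ 0 < c ∧ a.Coprime b ∧ a.Coprime c ∧ b.Coprime c ∧ a + b = c

/-- The number of distinct exponents in the prime factorisation of `m`. -/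
def numExp (m : ℕ) : ℕ := (m.primeFactors.image m.factorization).card

/-- `m` is a product of `n` powers, with arbitrary exponents, of positive integers `≤ Y`. -/
def Powers (n Y m : ℕ) : Prop :=
  ∃ x k : Fin n → ℕ, (∀ i, 1 ≤ x i ∧ x i ≤ Y) ∧ m = ∏ i, x i ^ k i

/-- The abc-triples `(a, b, c)` with `rad (abc) ≤ Y` and at most `n` distinct exponents in the
factorisation of `abc`, for which `rad (abc) ^ M ≤ c ≤ exp (rad (abc) ^ δ)`. -/
def violators (n : ℕ) (M δ : ℝ) (Y : ℕ) : Set (ℕ × ℕ × ℕ) :=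
  {t | AbcTriple t.1 t.2.1 t.2.2 ∧ numExp (t.1 * t.2.1 * t.2.2) ≤ n ∧
    rad (t.1 * t.2.1 * t.2.2) ≤ Y ∧ (rad (t.1 * t.2.1 * t.2.2) : ℝ) ^ M ≤ t.2.2 ∧
    (t.2.2 : ℝ) ≤ Real.exp ((rad (t.1 * t.2.1 * t.2.2) : ℝ) ^ δ)}

/-- The abc-triples `(A u, B v, C w)`, where `u, v, w` are products of `n` powers of positive
integers `≤ Y`, with `Y ^ M ≤ C w ≤ exp (Y ^ δ)`. -/
def powerTriples (n : ℕ) (M δ : ℝ) (A B C Y : ℕ) : Set (ℕ × ℕ × ℕ) :=
  {t | AbcTriple t.1 t.2.1 t.2.2 ∧ (∃ u, Powers n Y u ∧ t.1 = A * u) ∧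
    (∃ v, Powers n Y v ∧ t.2.1 = B * v) ∧ (∃ w, Powers n Y w ∧ t.2.2 = C * w) ∧
    (Y : ℝ) ^ M ≤ t.2.2 ∧ (t.2.2 : ℝ) ≤ Real.exp ((Y : ℝ) ^ δ)}

open Pool.Agent.Lib

private theorem finite_of_le (Z : Set (ℕ × ℕ × ℕ)) (X : ℝ)
    (hX : ∀ T : Finset (ℕ × ℕ × ℕ), (∀ t ∈ T, t ∈ Z) → (T.card : ℝ) ≤ X) :
    Z.Finite ∧ (Z.ncard : ℝ) ≤ X := by
  have hfin : Z.Finite := by
    by_contra hinf
    obtain ⟨F, hF, hc⟩ := (Set.not_finite.mp hinf).exists_subset_card_eq (⌊X⌋₊ + 1)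
    have h1 := hX F (fun t ht => hF ht)
    have h2 := Nat.lt_floor_add_one X
    rw [hc] at h1
    push_cast at h1
    linarith
  refine ⟨hfin, ?_⟩
  rw [Set.ncard_eq_toFinset_card Z hfin]
  exact hX _ fun t ht => hfin.mem_toFinset.mp ht

private theorem one_le_rad (m : ℕ) : 1 ≤ rad m :=
  Finset.prod_pos fun _ hp => (Nat.prime_of_mem_primeFactors hp).pos

/-- For all `n` and `ε > 0` there are `M` and `δ > 0` such that for all large `Y`:
* at most `Y ^ ε` abc-triples `(a, b, c)` with `rad (abc) ≤ Y` and at most `n` distinct exponents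
  in the prime factorisation of `abc` satisfy `rad (abc) ^ M ≤ c ≤ exp (rad (abc) ^ δ)`;
* for all positive integers `A, B, C` (of any size), at most `Y ^ ε` abc-triples `(A u, B v, C w)`
  with `u, v, w` products of `n` powers of positive integers `≤ Y` satisfy
  `Y ^ M ≤ C w ≤ exp (Y ^ δ)`. -/
theorem result : ∀ (n : ℕ) (ε : ℝ), 0 < ε → ∃ M δ : ℝ, 0 < δ ∧ ∀ᶠ Y : ℕ in atTop,
    ((violators n M δ Y).Finite ∧ ((violators n M δ Y).ncard : ℝ) ≤ (Y : ℝ) ^ ε) ∧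
    ∀ A B C : ℕ, (powerTriples n M δ A B C Y).Finite ∧
      ((powerTriples n M δ A B C Y).ncard : ℝ) ≤ (Y : ℝ) ^ ε := by
  intro n ε hε
  obtain ⟨M1, δ1, Y1, hδ1, hY1, h1⟩ := FewX.few_powers n ε hε
  obtain ⟨M2, δ2, Y2, hδ2, h2⟩ := FewX.few_exp n ε hε
  refine ⟨((max M1 M2 : ℕ) : ℝ), min δ1 δ2, lt_min hδ1 hδ2, ?_⟩
  filter_upwards [eventually_ge_atTop Y1, eventually_ge_atTop Y2, eventually_ge_atTop 1] with
    Y hYa hYb hYc
  refine ⟨finite_of_le _ _ ?_, fun A B C => finite_of_le _ _ ?_⟩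
  · intro T hT
    refine h2 Y hYb T fun t ht => ?_
    obtain ⟨g1, g2, g3, g4, g5⟩ := hT t ht
    have hr : (1 : ℝ) ≤ (rad (t.1 * t.2.1 * t.2.2) : ℝ) := by exact_mod_cast one_le_rad _
    refine ⟨g1, g2, g3, ?_, ?_⟩
    · rw [Real.rpow_natCast] at g4
      have h3 : rad (t.1 * t.2.1 * t.2.2) ^ (max M1 M2) ≤ t.2.2 := by exact_mod_cast g4
      exact (Nat.pow_le_pow_right (one_le_rad _) (le_max_right _ _)).trans h3
    · exact g5.trans (Real.exp_le_exp.2 (Real.rpow_le_rpow_of_exponent_le hr (min_le_right _ _)))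
  · intro T hT
    refine h1 Y hYa A B C T fun t ht => ?_
    obtain ⟨g1, g2, g3, g4, g5, g6⟩ := hT t ht
    have hr : (1 : ℝ) ≤ (Y : ℝ) := by exact_mod_cast hYc
    refine ⟨g1, g2, g3, g4, ?_, ?_⟩
    · rw [Real.rpow_natCast] at g5
      have h3 : Y ^ (max M1 M2) ≤ t.2.2 := by exact_mod_cast g5
      exact (Nat.pow_le_pow_right hYc (le_max_left _ _)).trans h3
    · exact g6.trans (Real.exp_le_exp.2 (Real.rpow_le_rpow_of_exponent_le hr (min_le_left _ _)))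

end Pool.Agent.Results.MP_2ec8a3_nt.FewPowers
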