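import Mathlib
import Pool.Agent.Lib.AbcQ.Q

namespace Pool.Agent.Results.MP_2ec8a3_nt.QuarterBound

/-- `(a, b, c)` is an abc-triple: pairwise coprime positive integers with `a + b = c`. -/
def AbcTriple (a b c : ℕ) : Prop := 0 < a ∧ 0 < b ∧ a + b = c ∧ Nat.Coprime a b

/-- The product of the distinct primes dividing `n`. -/
def rad (n : ℕ) : ℕ := ∏ p ∈ n.primeFactors, p

/-- The `i`-th largest prime factor of `n`, and `1` if `n` has fewer than `i` prime factors: the
least `P ≥ 1` such that fewer than `i` prime factors of `n` exceed `P`. -/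
noncomputable def big (i n : ℕ) : ℕ :=
  sInf {P : ℕ | 1 ≤ P ∧ (n.primeFactors.filter (fun p => P < p)).card < i}

theorem big_spec {i : ℕ} (hi : 0 < i) (r : ℕ) :
    1 ≤ big i r ∧ (r.primeFactors.filter (fun p => big i r < p)).card < i := by
  have hne : {P : ℕ | 1 ≤ P ∧ (r.primeFactors.filter (fun p => P < p)).card < i}.Nonempty := by
    refine ⟨r + 1, by omega, ?_⟩
    have h : r.primeFactors.filter (fun p => r + 1 < p) = ∅ := by
      rw [Finset.filter_eq_empty_iff]
      intro p hp hlt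
      have := Nat.le_of_mem_primeFactors hp
      omega
    rw [h]
    simpa using hi
  exact Nat.sInf_mem hne

theorem exc_big {i : ℕ} (n r : ℕ) (h : r.primeFactors = n.primeFactors) :
    Pool.Agent.Lib.AbcO.exc r (big (i + 1) n : ℝ) ≤ i := by
  have h1 := (big_spec (Nat.succ_pos i) n).2
  have h2 : r.primeFactors.filter (fun p : ℕ => (big (i + 1) n : ℝ) < (p : ℝ)) =
      n.primeFactors.filter (fun p => big (i + 1) n < p) := by
    rw [h]
    apply Finset.filter_congr
    intro p _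
    exact Nat.cast_lt
  unfold Pool.Agent.Lib.AbcO.exc
  rw [h2]
  exact Nat.lt_succ_iff.1 h1

/-- For every `ε > 0` there is `K` such that EVERY abc-triple has
`log c < K rad (abc) ^ (1/4 + ε)` (the record was `1/3` in place of `1/4`); more precisely
`log c < K rad (abc) ^ ε max (P_4, P_3 ^ (3/4))`, where `P_i` is the `i`-th largest prime factor of
`abc`. -/
theorem result : ∀ ε : ℝ, 0 < ε → ∃ K : ℝ, 0 < K ∧ ∀ a b c : ℕ, AbcTriple a b c →
    Real.log c < K * (rad (a * b * c) : ℝ) ^ (1 / 4 + ε) ∧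
    Real.log c < K * (rad (a * b * c) : ℝ) ^ ε *
      max (big 4 (a * b * c) : ℝ) ((big 3 (a * b * c) : ℝ) ^ (3 / 4 : ℝ)) := by
  intro ε hε
  obtain ⟨K1, hK1, h1⟩ := Pool.Agent.Lib.AbcQ.q_abs ε hε
  obtain ⟨K2, hK2, h2⟩ := Pool.Agent.Lib.AbcQ.q_P ε hε
  refine ⟨K1 + K2, by positivity, ?_⟩
  intro a b c h
  have hc : 0 < c := by have := h.1; have := h.2.2.1; omega
  have hne : a * b * c ≠ 0 := by
    have := h.1
    have := h.2.1
    positivity
  have hrad : 0 < rad (a * b * c) :=
    Finset.prod_pos fun _ hp => (Nat.prime_of_mem_primeFactors hp).pos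
  have hrR : (0 : ℝ) < (rad (a * b * c) : ℝ) := by exact_mod_cast hrad
  have hpf : (rad (a * b * c)).primeFactors = (a * b * c).primeFactors :=
    Nat.primeFactors_prod fun p hp => Nat.prime_of_mem_primeFactors hp
  constructor
  · refine (h1 a b c h).trans_lt ?_
    have : 0 < K2 * (rad (a * b * c) : ℝ) ^ (1 / 4 + ε) := by positivity
    calc K1 * (Pool.Agent.Lib.AbcH.rad (a * b * c) : ℝ) ^ (1 / 4 + ε)
        = K1 * (rad (a * b * c) : ℝ) ^ (1 / 4 + ε) := rfl
      _ < (K1 + K2) * (rad (a * b * c) : ℝ) ^ (1 / 4 + ε) := by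
          rw [add_mul]
          linarith
  · have h3 := h2 (rad (a * b * c)) (big 4 (a * b * c)) (big 3 (a * b * c)) hrad
      (by exact_mod_cast (big_spec (by norm_num) _).1) (by positivity)
      (exc_big (i := 3) _ _ hpf) (exc_big (i := 2) _ _ hpf)
    rw [Set.eq_empty_iff_forall_notMem] at h3
    have h4 : Real.log c ≤ K2 * (rad (a * b * c) : ℝ) ^ ε *
        max (big 4 (a * b * c) : ℝ) ((big 3 (a * b * c) : ℝ) ^ (3 / 4 : ℝ)) := by
      by_contra hcon
      push Not at hcon
      refine h3 (a, b, c) ⟨h, ?_, hcon⟩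
      intro p hp hpd
      exact Nat.dvd_of_mem_primeFactors (hpf ▸ Nat.mem_primeFactors.2 ⟨hp, hpd, hne⟩)
    refine h4.trans_lt ?_
    have hm : (1 : ℝ) ≤ max (big 4 (a * b * c) : ℝ) ((big 3 (a * b * c) : ℝ) ^ (3 / 4 : ℝ)) :=
      le_max_of_le_left (by exact_mod_cast (big_spec (by norm_num) _).1)
    have : 0 < K1 * (rad (a * b * c) : ℝ) ^ ε *
        max (big 4 (a * b * c) : ℝ) ((big 3 (a * b * c) : ℝ) ^ (3 / 4 : ℝ)) := by positivity
    rw [add_mul, add_mul]
    linarith

end Pool.Agent.Results.MP_2ec8a3_nt.QuarterBound
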