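import Mathlib
import Pool.Agent.Lib.AbcU.Sparse
import Pool.Agent.Lib.AbcU.Dist
import Pool.Agent.Lib.AbcU.Quad
import Pool.Agent.Lib.AbcU.Rand
import Pool.Agent.Lib.AbcU.RW3
import Pool.Agent.Lib.AbcU.Bin

open Filter Topology

namespace Pool.Agent.Results.MP_2ec8a3_nt.RandomSupports

/-- The radical of `n`: the product of the distinct primes dividing `n`. -/
def rad (n : ℕ) : ℕ := ∏ p ∈ n.primeFactors, p

/-- `(a, b, c)` is an abc-triple: pairwise coprime positive integers with `a + b = c`. -/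
def AbcTriple (a b c : ℕ) : Prop :=
  0 < a ∧ 0 < b ∧ 0 < c ∧ a.Coprime b ∧ a.Coprime c ∧ b.Coprime c ∧ a + b = c

/-- The abc-triples all of whose primes divide `r`: the solutions of the `S`-unit equation
`a + b = c`, where `S` is the set of the primes of `r`. -/
def sols (r : ℕ) : Set (ℕ × ℕ × ℕ) :=
  {t | AbcTriple t.1 t.2.1 t.2.2 ∧ rad (t.1 * t.2.1 * t.2.2) ∣ r}

/-- The abc-triples with `c ≥ x` all of whose primes divide `r`. -/
def high (r : ℕ) (x : ℝ) : Set (ℕ × ℕ × ℕ) := {t | t ∈ sols r ∧ x ≤ t.2.2}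

/-- The number of the abc-triples all of whose primes divide `r`. -/
noncomputable def N (r : ℕ) : ℕ := (sols r).ncard

/-- The number of those with `c ≥ x`. -/
noncomputable def H (r : ℕ) (x : ℝ) : ℕ := (high r x).ncard

/-- The abc-triples composed of primes of the set `T`. -/
def triples (T : Set ℕ) : Set (ℕ × ℕ × ℕ) :=
  {t | AbcTriple t.1 t.2.1 t.2.2 ∧ ∀ p ∈ (t.1 * t.2.1 * t.2.2).primeFactors, p ∈ T}

/-- Those of them with `c ≥ rad(abc) ^ m`. -/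
def above (T : Set ℕ) (m : ℝ) : Set (ℕ × ℕ × ℕ) :=
  {t | t ∈ triples T ∧ (rad (t.1 * t.2.1 * t.2.2) : ℝ) ^ m ≤ t.2.2}

/-- The type of the abc-triples. -/
abbrev Triple : Type := {t : ℕ × ℕ × ℕ // AbcTriple t.1 t.2.1 t.2.2}

/-- The least common multiple of the radicals of the triples of a tuple. -/
def lcmRad {k : ℕ} (s : Fin k → Triple) : ℕ :=
  Finset.univ.lcm (fun i => rad ((s i).1.1 * (s i).1.2.1 * (s i).1.2.2))

/-- The sum over all the `k`-tuples of abc-triples of `1 / lcm` of the radicals. -/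
noncomputable def E (k : ℕ) : ℝ := ∑' s : Fin k → Triple, 1 / (lcmRad s : ℝ)

/-- The value at `(x, y)` of the binary form `∑ a i * x ^ i * y ^ (D - i)`. -/
def form (D : ℕ) (a : ℕ → ℤ) (x y : ℕ) : ℤ :=
  ∑ i ∈ Finset.range (D + 1), a i * (x : ℤ) ^ i * (y : ℤ) ^ (D - i)

open Pool.Agent.Lib.Pabc2 (rd ht)
open Pool.Agent.Lib.AbcU (sol Hi L off)

/-- The pair `(a, b)`. -/
def e (t : Triple) : ℕ × ℕ := (t.1.1, t.1.2.1)

theorem e_inj : Function.Injective e := by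
  rintro ⟨⟨a, b, c⟩, h⟩ ⟨⟨a', b', c'⟩, h'⟩ hh
  simp only [e, Prod.mk.injEq] at hh
  have e1 : a + b = c := h.2.2.2.2.2.2
  have e2 : a' + b' = c' := h'.2.2.2.2.2.2
  simp only [Subtype.mk.injEq, Prod.mk.injEq]
  rw [← e1, ← e2, hh.1, hh.2]
  exact ⟨rfl, rfl, rfl⟩

theorem e_prop (t : Triple) : 0 < (e t).1 ∧ 0 < (e t).2 ∧ Nat.Coprime (e t).1 (e t).2 :=
  ⟨t.2.1, t.2.2.1, t.2.2.2.2.1⟩

theorem rad_eq (t : Triple) : rad (t.1.1 * t.1.2.1 * t.1.2.2) = rd (e t) := by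
  obtain ⟨⟨a, b, c⟩, h⟩ := t
  have e1 : a + b = c := h.2.2.2.2.2.2
  subst e1
  rfl

theorem lcmRad_eq {k : ℕ} (s : Fin k → Triple) : lcmRad s = L (fun t => rd (e t)) s := by
  unfold lcmRad L
  simp only [rad_eq]

theorem sols_eq (r : ℕ) : sols r = Subtype.val '' (sol (fun t : Triple => rd (e t)) r) := by
  ext t
  simp only [sols, Set.mem_ofPred_eq, Set.mem_image, sol]
  constructor
  · rintro ⟨h1, h2⟩
    refine ⟨⟨t, h1⟩, ?_, rfl⟩
    rw [← rad_eq]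
    exact h2
  · rintro ⟨s, h1, rfl⟩
    rw [← rad_eq] at h1
    exact ⟨s.2, h1⟩

theorem high_eq (r : ℕ) (x : ℝ) (hx : 0 < x) : high r x =
    Subtype.val '' (sol (fun t : Triple => rd (e t)) r ∩ Hi e (Real.log x)) := by
  have key : ∀ s : Triple, x ≤ (s.1.2.2 : ℝ) ↔ Real.log x ≤ ht (e s) := by
    rintro ⟨⟨a, b, c⟩, h⟩
    have e1 : a + b = c := h.2.2.2.2.2.2
    have hc : (0 : ℝ) < c := by exact_mod_cast h.2.2.1
    have e3 : (a : ℝ) + b = c := by exact_mod_cast e1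
    have e2 : ht (e ⟨⟨a, b, c⟩, h⟩) = Real.log c := by
      rw [← e3]
      rfl
    rw [e2, Real.log_le_log_iff hx hc]
  ext t
  simp only [high, Set.mem_ofPred_eq, sols_eq, Set.mem_image, Set.mem_inter_iff]
  constructor
  · rintro ⟨⟨s, h1, rfl⟩, h2⟩
    exact ⟨s, ⟨h1, (key s).mp h2⟩, rfl⟩
  · rintro ⟨s, ⟨h1, h2⟩, rfl⟩
    exact ⟨⟨s, h1, rfl⟩, (key s).mpr h2⟩

theorem N_eq (r : ℕ) : N r = (sol (fun t : Triple => rd (e t)) r).ncard := by
  unfold N
  rw [sols_eq, Set.ncard_image_of_injective _ Subtype.val_injective]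

theorem H_eq (r : ℕ) (x : ℝ) (hx : 0 < x) :
    H r x = (sol (fun t : Triple => rd (e t)) r ∩ Hi e (Real.log x)).ncard := by
  unfold H
  rw [high_eq r x hx, Set.ncard_image_of_injective _ Subtype.val_injective]

theorem R_pos (t : Triple) : 1 ≤ rd (e t) := Pool.Agent.Lib.AbcU.rd_pos' _

theorem D_ne_top (k : ℕ) (σ : ℝ) (hσ : 2 / 3 < σ) :
    Pool.Agent.Lib.AbcU.Dk (fun t : Triple => rd (e t)) Set.univ k σ ≠ ⊤ :=
  Pool.Agent.Lib.AbcU.Dk_all e e_inj e_prop k σ hσ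

theorem finite_R (n : ℕ) : {t : Triple | rd (e t) ≤ n}.Finite :=
  Pool.Agent.Lib.AbcU.finite_R_le (fun t : Triple => rd (e t)) R_pos (σ := 1) (by norm_num)
    (D_ne_top 1 1 (by norm_num)) n

theorem sols_finite (r : ℕ) (hr : 1 ≤ r) : (sols r).Finite := by
  rw [sols_eq]
  exact (Pool.Agent.Lib.AbcU.finite_sol _ finite_R hr).image _

theorem summable_E (k : ℕ) : Summable (fun s : Fin k → Triple => 1 / (lcmRad s : ℝ)) := by
  refine (Pool.Agent.Lib.AbcU.summable_L _ k 1 (D_ne_top k 1 (by norm_num))).congr (fun s => ?_)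
  rw [Real.rpow_neg_one, one_div, lcmRad_eq]

/-- The moments. -/
theorem moments (k : ℕ) (ε : ℝ) (hε : 0 < ε) : ∃ K : ℝ, ∀ Y : ℕ, 1 ≤ Y →
    |∑ r ∈ Finset.Icc 1 Y, (N r : ℝ) ^ k - E k * Y| ≤ K * (Y : ℝ) ^ (2 / 3 + ε) := by
  obtain ⟨σ, hσ⟩ : ∃ σ : ℝ, σ = min (2 / 3 + ε) 1 := ⟨_, rfl⟩
  have hσ1 : σ ≤ 1 := by rw [hσ]; exact min_le_right _ _
  have hσ2 : 2 / 3 < σ := by rw [hσ]; exact lt_min (by linarith) (by norm_num)
  have hσ3 : σ ≤ 2 / 3 + ε := by rw [hσ]; exact min_le_left _ _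
  refine ⟨∑' s : Fin k → Triple, (L (fun t => rd (e t)) s : ℝ) ^ (-σ), fun Y hY => ?_⟩
  have h := Pool.Agent.Lib.AbcU.moment_bound (fun t : Triple => rd (e t)) R_pos (2 / 3)
    (by norm_num) D_ne_top k σ hσ2 hσ1 Y
  have h1 : E k = ∑' s : Fin k → Triple, 1 / (L (fun t => rd (e t)) s : ℝ) := by
    unfold E
    simp only [lcmRad_eq]
  rw [h1]
  simp only [N_eq]
  refine h.trans ?_
  have hY1 : (1 : ℝ) ≤ Y := by exact_mod_cast hY
  apply mul_le_mul_of_nonneg_left (Real.rpow_le_rpow_of_exponent_le hY1 hσ3)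
  exact tsum_nonneg (fun s => by positivity)

/-- The normalised moments converge. -/
theorem moments_tendsto (k : ℕ) : Tendsto (fun Y : ℕ =>
    (∑ r ∈ Finset.Icc 1 Y, (N r : ℝ) ^ k) / Y) atTop (𝓝 (E k)) := by
  obtain ⟨K, hK⟩ := moments k (1 / 6) (by norm_num)
  rw [tendsto_iff_norm_sub_tendsto_zero]
  have h1 : Tendsto (fun Y : ℕ => K * (Y : ℝ) ^ (-(1 / 6) : ℝ)) atTop (𝓝 0) := by
    have h2 := (tendsto_rpow_neg_atTop (y := 1 / 6) (by norm_num)).comp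
      (tendsto_natCast_atTop_atTop (R := ℝ))
    simpa using h2.const_mul K
  refine squeeze_zero' (Eventually.of_forall (fun _ => norm_nonneg _)) ?_ h1
  filter_upwards [eventually_ge_atTop 1] with Y hY
  have hY0 : (0 : ℝ) < Y := by exact_mod_cast hY
  have h3 := hK Y hY
  rw [Real.norm_eq_abs]
  have h4 : (∑ r ∈ Finset.Icc 1 Y, (N r : ℝ) ^ k) / Y - E k =
      (∑ r ∈ Finset.Icc 1 Y, (N r : ℝ) ^ k - E k * Y) / Y := by
    field_simp
  rw [h4, abs_div, abs_of_pos hY0, div_le_iff₀ hY0]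
  refine h3.trans (le_of_eq ?_)
  rw [mul_assoc, ← Real.rpow_add_one hY0.ne']
  norm_num

/-- The limiting distribution. -/
theorem limit_law : ∃ d : ℕ → ℝ, (∀ j : ℕ, Tendsto (fun Y : ℕ =>
    (((Finset.Icc 1 Y).filter (fun r => N r = j)).card : ℝ) / Y) atTop (𝓝 (d j))) ∧
      ∀ k : ℕ, HasSum (fun j : ℕ => (j : ℝ) ^ k * d j) (E k) := by
  have hs : Summable (fun t : Triple => (1 : ℝ) / (rd (e t) : ℝ)) := by
    have h1 := (Pool.Agent.Lib.AbcU.summable_L (fun t : Triple => rd (e t)) 1 1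
      (D_ne_top 1 1 (by norm_num))).comp_injective
      (i := fun i : Triple => (fun _ : Fin 1 => i)) (by
        intro i j hij
        exact congrFun hij 0)
    refine h1.congr (fun i => ?_)
    simp only [Function.comp]
    rw [Real.rpow_neg_one, one_div]
    congr 2
    apply Nat.dvd_antisymm
    · rw [Pool.Agent.Lib.AbcU.L_dvd]
      intro _
      exact dvd_rfl
    · exact (Pool.Agent.Lib.AbcU.L_dvd (fun t : Triple => rd (e t)) (fun _ : Fin 1 => i) _).mp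
        dvd_rfl 0
  choose d hd using fun j : ℕ => Pool.Agent.Lib.AbcU.density_exists
    (R := fun t : Triple => rd (e t)) R_pos hs j
  have hN : ∀ r, Pool.Agent.Lib.AbcU.numDvd (fun t : Triple => rd (e t)) r = N r :=
    fun r => (N_eq r).symm
  simp only [hN] at hd
  refine ⟨d, fun j => ?_, fun k => ?_⟩
  · have h := hd j
    simp only [Pool.Agent.Lib.AbcU.cnt_eq] at h
    exact h
  · apply Pool.Agent.Lib.AbcU.hasSum_moment hd (moments_tendsto k) (C := E (k + 1) + 1)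
    have h := (moments_tendsto (k + 1)).eventually (gt_mem_nhds (lt_add_one (E (k + 1))))
    filter_upwards [h] with Y hY
    exact hY.le

/-- The tail moments. -/
theorem tails (k : ℕ) (hk : 1 ≤ k) (η : ℝ) (hη0 : 0 < η) (hη : η < 1 / 3) :
    ∃ K : ℝ, ∀ (Y : ℕ) (X : ℝ), 2 ≤ X →
      ∑ r ∈ Finset.Icc 1 Y, (H r X : ℝ) ^ k ≤ K * Y / Real.log X ^ η := by
  classical
  obtain ⟨K, hK0, hK⟩ := Pool.Agent.Lib.AbcU.tsum_high e e_inj e_prop k hk η hη0 hη
  refine ⟨K, fun Y X hX => ?_⟩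
  have hX0 : 0 < X := by linarith
  have hl : 0 < Real.log X := Real.log_pos (by linarith)
  have h1 := hK (Real.log X) hl
  have h2 := Pool.Agent.Lib.AbcU.sum_pow_le (fun t : Triple => rd (e t)) finite_R
    (Hi e (Real.log X)) (Finset.Icc 1 Y) (fun r => r)
    (fun r hr => (Finset.mem_Icc.mp hr).1) k
    (fun s => ENNReal.ofReal (Y * (L (fun t => rd (e t)) s : ℝ) ^ (-(1 : ℝ)))) (by
      intro s _
      rw [← ENNReal.ofReal_natCast]
      apply ENNReal.ofReal_le_ofReal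
      have h3 : ((Finset.Icc 1 Y).filter (fun r => L (fun t => rd (e t)) s ∣ r)).card =
          Y / L (fun t => rd (e t)) s := by
        rw [← Nat.Ioc_filter_dvd_card_eq_div Y (L (fun t => rd (e t)) s)]
        congr 1
      rw [h3, Real.rpow_neg_one, ← div_eq_mul_inv]
      exact Nat.cast_div_le)
  have h3 : (∑' s : Fin k → Triple, if ∀ j, s j ∈ Hi e (Real.log X) then
      ENNReal.ofReal (Y * (L (fun t => rd (e t)) s : ℝ) ^ (-(1 : ℝ))) else 0) =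
      ENNReal.ofReal Y * ∑' s : Fin k → Triple, if ∀ j, s j ∈ Hi e (Real.log X) then
        ENNReal.ofReal ((L (fun t => rd (e t)) s : ℝ) ^ (-(1 : ℝ))) else 0 := by
    rw [← ENNReal.tsum_mul_left]
    apply tsum_congr
    intro s
    by_cases g1 : ∀ j, s j ∈ Hi e (Real.log X)
    · rw [if_pos g1, if_pos g1, ENNReal.ofReal_mul (Nat.cast_nonneg _)]
    · rw [if_neg g1, if_neg g1, mul_zero]
  rw [h3] at h2
  have h4 : ENNReal.ofReal (∑ r ∈ Finset.Icc 1 Y, (H r X : ℝ) ^ k) ≤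
      ENNReal.ofReal (K * Y / Real.log X ^ η) := by
    rw [ENNReal.ofReal_sum_of_nonneg (fun i _ => by positivity)]
    have h5 : ∀ r ∈ Finset.Icc 1 Y, ENNReal.ofReal ((H r X : ℝ) ^ k) =
        (((sol (fun t : Triple => rd (e t)) r ∩ Hi e (Real.log X)).ncard ^ k : ℕ) : ENNReal) := by
      intro r _
      rw [← ENNReal.ofReal_natCast, H_eq r X hX0]
      congr 1
      push_cast
      rfl
    rw [Finset.sum_congr rfl h5]
    refine h2.trans ?_
    have h6 : K * Y / Real.log X ^ η = Y * (K * Real.log X ^ (-η)) := by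
      rw [Real.rpow_neg hl.le]
      ring
    rw [h6, ENNReal.ofReal_mul (Nat.cast_nonneg _)]
    gcongr
  have h6 : 0 ≤ K * Y / Real.log X ^ η := by positivity
  exact (ENNReal.ofReal_le_ofReal_iff h6).mp h4

theorem H_mono (r : ℕ) (hr : 1 ≤ r) (x y : ℝ) (hxy : x ≤ y) : H r y ≤ H r x := by
  unfold H
  apply Set.ncard_le_ncard
  · intro t ht
    exact ⟨ht.1, hxy.trans ht.2⟩
  · exact (sols_finite r hr).subset (fun t ht => ht.1)

/-- Sparse families. -/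
theorem sparse {κ : Type} (k : ℕ) (hk : 1 ≤ k) (s t η : ℝ) (ht : 1 / 3 < t) (hη0 : 0 < η)
    (hη : η < (s - 1 / 3) / 2) : ∃ M K : ℝ, 1 ≤ M ∧ 0 ≤ K ∧
      ∀ (Y C : ℝ) (I : Finset κ) (r : κ → ℕ),
      2 ≤ Y → 0 ≤ C → (∀ i ∈ I, 1 ≤ r i ∧ (r i : ℝ) ≤ Y) →
      (∀ d : ℕ, (d : ℝ) ≤ Y → Squarefree d →
        ((I.filter (fun i => d ∣ r i)).card : ℝ) ≤ C * ((d : ℝ) ^ (-s) + Y ^ (-t))) →
      ∑ i ∈ I, (H (r i) (Y ^ M) : ℝ) ^ k ≤ C * K / Real.log Y ^ η := by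
  classical
  obtain ⟨M, K, hM, hK, h⟩ := Pool.Agent.Lib.AbcU.family e e_inj e_prop k hk s t η ht hη0 hη
  refine ⟨M, K, hM, hK, fun Y C I r hY hC hr hd => ?_⟩
  have hY0 : 0 < Y := by linarith
  have h1 := h Y C hY hC I r hr (by
    intro d hdY hds
    convert hd d hdY hds)
  have h2 : ∀ i ∈ I, (H (r i) (Y ^ M) : ℝ) ^ k =
      ((sol (fun t : Triple => rd (e t)) (r i) ∩ Hi e (M * Real.log Y)).ncard : ℝ) ^ k := by
    intro i _
    rw [H_eq (r i) (Y ^ M) (by positivity), Real.log_rpow hY0]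
  rw [Finset.sum_congr rfl h2]
  refine h1.trans (le_of_eq ?_)
  rw [Real.rpow_neg (Real.log_nonneg (by linarith)), div_eq_mul_inv]

/-- Short intervals. -/
theorem intervals (k : ℕ) (hk : 1 ≤ k) (δ η : ℝ) (hδ : 0 < δ) (hη0 : 0 < η) (hη : η < 1 / 3) :
    ∃ M K : ℝ, ∀ Y h : ℕ, 2 ≤ Y → (Y : ℝ) ^ (1 / 3 + δ) ≤ h → h ≤ Y →
      ∑ r ∈ Finset.Ioc Y (Y + h), (H r ((r : ℝ) ^ M) : ℝ) ^ k ≤ K * h / Real.log Y ^ η := by
  classical
  obtain ⟨M, K, hM, hK, hsp⟩ := sparse (κ := ℕ) k hk 1 (1 / 3 + δ) η (by linarith) hη0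
    (by linarith)
  refine ⟨2 * M, 2 ^ (1 / 3 + δ) * K, fun Y h hY hlow hhigh => ?_⟩
  have hY2 : (2 : ℝ) ≤ Y := by exact_mod_cast hY
  have hY0 : (0 : ℝ) < Y := by linarith
  have hh0 : (0 : ℝ) < h := lt_of_lt_of_le (by positivity) hlow
  have hl0 : 0 < Real.log Y := Real.log_pos (by linarith)
  have h1 := hsp (2 * Y) (2 ^ (1 / 3 + δ) * h) (Finset.Ioc Y (Y + h)) (fun r => r)
    (by linarith) (by positivity) (by
      intro r hr
      rw [Finset.mem_Ioc] at hr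
      refine ⟨by omega, ?_⟩
      have h2 : r ≤ 2 * Y := by omega
      exact_mod_cast h2) (by
      intro d _ hds
      have hd0 : 0 < d := Nat.pos_of_ne_zero hds.ne_zero
      have hd0' : (0 : ℝ) < d := by exact_mod_cast hd0
      have h2 : (((Finset.Ioc Y (Y + h)).filter (fun r => d ∣ r)).card : ℝ) ≤ h / d + 1 := by
        have h3 : ((Finset.Ioc Y (Y + h)).filter (fun r => d ∣ r)).card =
            (Y + h) / d - Y / d := by
          have h4 := Nat.Ioc_filter_dvd_card_eq_div (Y + h) d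
          have h5 := Nat.Ioc_filter_dvd_card_eq_div Y d
          have h6 : (Finset.Ioc 0 (Y + h)).filter (fun r => d ∣ r) =
              (Finset.Ioc 0 Y).filter (fun r => d ∣ r) ∪
              (Finset.Ioc Y (Y + h)).filter (fun r => d ∣ r) := by
            rw [← Finset.filter_union, Finset.Ioc_union_Ioc_eq_Ioc (Nat.zero_le _)
              (Nat.le_add_right _ _)]
          have h7 : Disjoint ((Finset.Ioc 0 Y).filter (fun r => d ∣ r))
              ((Finset.Ioc Y (Y + h)).filter (fun r => d ∣ r)) := by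
            rw [Finset.disjoint_left]
            intro r hr hr'
            rw [Finset.mem_filter, Finset.mem_Ioc] at hr hr'
            omega
          have h8 := Finset.card_union_of_disjoint h7
          rw [← h6, h4, h5] at h8
          omega
        rw [h3]
        have h9 : (Y + h) / d ≤ Y / d + h / d + 1 := by
          have := Nat.add_div hd0 (a := Y) (b := h)
          rw [this]
          split_ifs <;> omega
        have h10 : (Y + h) / d - Y / d ≤ h / d + 1 := by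
          rw [Nat.sub_le_iff_le_add]
          calc (Y + h) / d ≤ Y / d + h / d + 1 := h9
            _ = h / d + 1 + Y / d := by ring
        calc (((Y + h) / d - Y / d : ℕ) : ℝ) ≤ ((h / d + 1 : ℕ) : ℝ) := by exact_mod_cast h10
          _ = ((h / d : ℕ) : ℝ) + 1 := by push_cast; rfl
          _ ≤ h / d + 1 := by
              have := Nat.cast_div_le (α := ℝ) (m := h) (n := d)
              linarith
      refine h2.trans ?_
      have h3 : (1 : ℝ) ≤ 2 ^ (1 / 3 + δ) := Real.one_le_rpow (by norm_num) (by linarith)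
      have h4 : (2 * (Y : ℝ)) ^ (-(1 / 3 + δ)) = 2 ^ (-(1 / 3 + δ)) * (Y : ℝ) ^ (-(1 / 3 + δ)) :=
        Real.mul_rpow (by norm_num) hY0.le
      have h5 : (2 : ℝ) ^ (1 / 3 + δ) * 2 ^ (-(1 / 3 + δ)) = 1 := by
        rw [← Real.rpow_add (by norm_num)]
        simp
      have h6 : 1 ≤ (h : ℝ) * (Y : ℝ) ^ (-(1 / 3 + δ)) := by
        rw [Real.rpow_neg hY0.le, ← div_eq_mul_inv, le_div_iff₀ (by positivity), one_mul]
        exact hlow
      have h7 : (2 : ℝ) ^ (1 / 3 + δ) * h * ((d : ℝ) ^ (-(1 : ℝ)) +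
          (2 * (Y : ℝ)) ^ (-(1 / 3 + δ))) = 2 ^ (1 / 3 + δ) * (h / d) +
            h * (Y : ℝ) ^ (-(1 / 3 + δ)) := by
        rw [h4, Real.rpow_neg_one]
        calc (2 : ℝ) ^ (1 / 3 + δ) * h * ((d : ℝ)⁻¹ + 2 ^ (-(1 / 3 + δ)) *
              (Y : ℝ) ^ (-(1 / 3 + δ)))
            = 2 ^ (1 / 3 + δ) * (h / d) + (2 ^ (1 / 3 + δ) * 2 ^ (-(1 / 3 + δ))) *
              (h * (Y : ℝ) ^ (-(1 / 3 + δ))) := by
              rw [div_eq_mul_inv]
              ring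
          _ = _ := by rw [h5, one_mul]
      rw [h7]
      have h8 : (h : ℝ) / d ≤ 2 ^ (1 / 3 + δ) * (h / d) := le_mul_of_one_le_left (by positivity) h3
      linarith)
  have h2 : ∑ r ∈ Finset.Ioc Y (Y + h), (H r ((r : ℝ) ^ (2 * M)) : ℝ) ^ k ≤
      ∑ r ∈ Finset.Ioc Y (Y + h), (H r ((2 * (Y : ℝ)) ^ M) : ℝ) ^ k := by
    apply Finset.sum_le_sum
    intro r hr
    rw [Finset.mem_Ioc] at hr
    have hr0 : (Y : ℝ) ≤ r := by exact_mod_cast hr.1.le
    have h3 : (2 * (Y : ℝ)) ^ M ≤ (r : ℝ) ^ (2 * M) := by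
      rw [Real.rpow_mul (by positivity), show ((r : ℝ) ^ (2 : ℝ)) = (r : ℝ) ^ 2 by norm_cast]
      apply Real.rpow_le_rpow (by positivity) _ (by linarith)
      nlinarith
    have h4 := H_mono r (by omega) _ _ h3
    gcongr
  refine h2.trans (h1.trans ?_)
  have h3 : Real.log Y ^ η ≤ Real.log (2 * Y) ^ η :=
    Real.rpow_le_rpow hl0.le (Real.log_le_log hY0 (by linarith)) hη0.le
  have h4 : (0 : ℝ) ≤ 2 ^ (1 / 3 + δ) * h * K := by positivity
  calc 2 ^ (1 / 3 + δ) * (h : ℝ) * K / Real.log (2 * Y) ^ η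
      ≤ 2 ^ (1 / 3 + δ) * (h : ℝ) * K / Real.log Y ^ η :=
        div_le_div_of_nonneg_left h4 (by positivity) h3
    _ = _ := by ring

theorem H_le_N (r : ℕ) (hr : 1 ≤ r) (x : ℝ) : H r x ≤ N r := by
  unfold H N
  exact Set.ncard_le_ncard (fun t ht => ht.1) (sols_finite r hr)

theorem log_rpow_le (n : ℕ) (hn : 2 ≤ n) (η : ℝ) (hη0 : 0 < η) (hη : η < 1 / 3) :
    Real.log n ^ η ≤ n := by
  have hn1 : (1 : ℝ) ≤ n := by exact_mod_cast (by omega : 1 ≤ n)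
  have h0 : 0 ≤ Real.log n := Real.log_nonneg hn1
  rcases le_total (Real.log n) 1 with h | h
  · exact (Real.rpow_le_one h0 h hη0.le).trans hn1
  · calc Real.log n ^ η ≤ Real.log n ^ (1 : ℝ) :=
          Real.rpow_le_rpow_of_exponent_le h (by linarith)
      _ = Real.log n := Real.rpow_one _
      _ ≤ n := by
          have := Real.log_le_sub_one_of_pos (x := (n : ℝ)) (by linarith)
          linarith

theorem natAbs_quad_le (a b c : ℤ) (n n0 : ℕ) (h1 : 1 ≤ n) (h2 : n ≤ n0) :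
    (a * (n : ℤ) ^ 2 + b * n + c).natAbs ≤ (a.natAbs + b.natAbs + c.natAbs) * n0 ^ 2 := by
  have h3 : n ≤ n0 ^ 2 := h2.trans (Nat.le_self_pow (by norm_num) n0)
  have h4 : n ^ 2 ≤ n0 ^ 2 := Nat.pow_le_pow_left h2 2
  have h5 : 1 ≤ n0 ^ 2 := h1.trans h3
  calc (a * (n : ℤ) ^ 2 + b * n + c).natAbs
      ≤ (a * (n : ℤ) ^ 2 + b * n).natAbs + c.natAbs := Int.natAbs_add_le _ _
    _ ≤ (a * (n : ℤ) ^ 2).natAbs + (b * n).natAbs + c.natAbs := by
        have := Int.natAbs_add_le (a * (n : ℤ) ^ 2) (b * n)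
        omega
    _ = a.natAbs * n ^ 2 + b.natAbs * n + c.natAbs * 1 := by
        rw [Int.natAbs_mul, Int.natAbs_mul, Int.natAbs_pow, Int.natAbs_natCast, mul_one]
    _ ≤ a.natAbs * n0 ^ 2 + b.natAbs * n0 ^ 2 + c.natAbs * n0 ^ 2 := by gcongr
    _ = (a.natAbs + b.natAbs + c.natAbs) * n0 ^ 2 := by ring

/-- Values of quadratic polynomials. -/
theorem quadratic (k : ℕ) (hk : 1 ≤ k) (η : ℝ) (hη0 : 0 < η) (hη : η < 1 / 3) :
    ∃ M : ℝ, ∀ a b c : ℤ, (∀ p : ℕ, p.Prime → ¬ ((p : ℤ) ∣ a ∧ (p : ℤ) ∣ b ∧ (p : ℤ) ∣ c)) →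
      ∃ K : ℝ, ∀ n0 : ℕ, 2 ≤ n0 →
        ∑ n ∈ (Finset.Icc 1 n0).filter (fun n : ℕ => a * (n : ℤ) ^ 2 + b * n + c ≠ 0),
          (H (a * (n : ℤ) ^ 2 + b * n + c).natAbs ((n0 : ℝ) ^ M) : ℝ) ^ k ≤
        K * n0 / Real.log n0 ^ η := by
  classical
  obtain ⟨ε, hε⟩ : ∃ ε : ℝ, ε = min (1 / 3 - η) (1 / 12) := ⟨_, rfl⟩
  have hε0 : 0 < ε := by rw [hε]; exact lt_min (by linarith) (by norm_num)
  have hε1 : ε ≤ 1 / 3 - η := by rw [hε]; exact min_le_left _ _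
  have hε2 : ε ≤ 1 / 12 := by rw [hε]; exact min_le_right _ _
  obtain ⟨M, K0, hM, hK0, hsp⟩ := sparse (κ := ℕ) k hk (1 - ε) (1 / 2 - ε) η (by linarith) hη0
    (by linarith)
  obtain ⟨C4, hC4, h4⟩ := Pool.Agent.Lib.AbcS.four_pow_le ε hε0
  refine ⟨3 * M, fun a b c habc => ?_⟩
  obtain ⟨f, hf⟩ : ∃ f : ℕ → ℤ, f = fun n : ℕ => a * (n : ℤ) ^ 2 + b * n + c := ⟨_, rfl⟩
  obtain ⟨A, hA⟩ : ∃ A : ℕ, A = a.natAbs + b.natAbs + c.natAbs := ⟨_, rfl⟩
  have hA1 : 1 ≤ A := by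
    by_contra hcon
    have ha : a = 0 := by omega
    have hb : b = 0 := by omega
    have hc : c = 0 := by omega
    exact habc 2 Nat.prime_two ⟨by rw [ha]; exact dvd_zero _, by rw [hb]; exact dvd_zero _,
      by rw [hc]; exact dvd_zero _⟩
  have hA1' : (1 : ℝ) ≤ A := by exact_mod_cast hA1
  obtain ⟨B, hB⟩ : ∃ B : ℝ, B = ∑ n ∈ (Finset.Icc 1 A).filter (fun n : ℕ => f n ≠ 0),
      (N (f n).natAbs : ℝ) ^ k := ⟨_, rfl⟩
  have hB0 : 0 ≤ B := by rw [hB]; exact Finset.sum_nonneg (fun n _ => by positivity)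
  refine ⟨C4 * A * K0 + B, fun n0 hn0 => ?_⟩
  have hgoal : ∀ n : ℕ, a * (n : ℤ) ^ 2 + b * n + c = f n := fun n => by rw [hf]
  simp only [hgoal]
  have hn2 : (2 : ℝ) ≤ n0 := by exact_mod_cast hn0
  have hn1 : (0 : ℝ) < n0 := by linarith
  have hl0 : 0 < Real.log n0 := Real.log_pos (by linarith)
  have hlog := log_rpow_le n0 hn0 η hη0 hη
  have hCAK : 0 ≤ C4 * A * K0 := by positivity
  have hpos : ∀ n ∈ (Finset.Icc 1 n0).filter (fun n : ℕ => f n ≠ 0), 1 ≤ (f n).natAbs := by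
    intro n hn
    exact Int.natAbs_pos.mpr (Finset.mem_filter.mp hn).2
  rcases Nat.lt_or_ge n0 A with hlt | hge
  · -- few values
    have h1 : ∑ n ∈ (Finset.Icc 1 n0).filter (fun n : ℕ => f n ≠ 0),
        (H (f n).natAbs ((n0 : ℝ) ^ (3 * M)) : ℝ) ^ k ≤ B := by
      rw [hB]
      refine le_trans (Finset.sum_le_sum (fun n hn => ?_)) (Finset.sum_le_sum_of_subset_of_nonneg
        (Finset.filter_subset_filter _ (Finset.Icc_subset_Icc_right hlt.le))
        (fun n _ _ => by positivity))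
      have h2 := H_le_N (f n).natAbs (hpos n hn) ((n0 : ℝ) ^ (3 * M))
      gcongr
    have h2 : 1 ≤ (n0 : ℝ) / Real.log n0 ^ η := by
      rw [le_div_iff₀ (by positivity), one_mul]
      exact hlog
    calc ∑ n ∈ (Finset.Icc 1 n0).filter (fun n : ℕ => f n ≠ 0),
        (H (f n).natAbs ((n0 : ℝ) ^ (3 * M)) : ℝ) ^ k ≤ B * 1 := by linarith
      _ ≤ (C4 * A * K0 + B) * (n0 / Real.log n0 ^ η) :=
          mul_le_mul (by linarith) h2 (by norm_num) (by linarith)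
      _ = _ := by ring
  · have hge' : (A : ℝ) ≤ n0 := by exact_mod_cast hge
    have hY : (2 : ℝ) ≤ A * (n0 : ℝ) ^ 2 := by nlinarith
    have hY0 : (0 : ℝ) < A * (n0 : ℝ) ^ 2 := by linarith
    have h1 := hsp (A * (n0 : ℝ) ^ 2) (C4 * A * n0)
      ((Finset.Icc 1 n0).filter (fun n : ℕ => f n ≠ 0)) (fun n => (f n).natAbs) hY
      (by positivity) (by
        intro n hn
        refine ⟨hpos n hn, ?_⟩
        rw [Finset.mem_filter, Finset.mem_Icc] at hn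
        have h2 := natAbs_quad_le a b c n n0 hn.1.1 hn.1.2
        rw [hgoal, ← hA] at h2
        exact_mod_cast h2) (by
        intro d hdY hds
        have hd0 : 0 < d := Nat.pos_of_ne_zero hds.ne_zero
        have hd0' : (0 : ℝ) < d := by exact_mod_cast hd0
        have h2 : ((((Finset.Icc 1 n0).filter (fun n : ℕ => f n ≠ 0)).filter
            (fun n => d ∣ (f n).natAbs)).card : ℝ) ≤ 2 ^ d.primeFactors.card * (n0 / d + 1) := by
          have h3 := Pool.Agent.Lib.AbcU.quad_count habc n0 hds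
          have h4 : ((Finset.Icc 1 n0).filter (fun n : ℕ => f n ≠ 0)).filter
              (fun n => d ∣ (f n).natAbs) ⊆ (Finset.Icc 1 n0).filter
                (fun n : ℕ => (d : ℤ) ∣ a * (n : ℤ) ^ 2 + b * (n : ℤ) + c) := by
            intro n hn
            rw [Finset.mem_filter, Finset.mem_filter] at hn
            rw [Finset.mem_filter, hgoal]
            exact ⟨hn.1.1, Int.natCast_dvd.mpr hn.2⟩
          have h5 := (Finset.card_le_card h4).trans h3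
          calc ((((Finset.Icc 1 n0).filter (fun n : ℕ => f n ≠ 0)).filter
              (fun n => d ∣ (f n).natAbs)).card : ℝ)
              ≤ ((2 ^ d.primeFactors.card * (n0 / d + 1) : ℕ) : ℝ) := by exact_mod_cast h5
            _ = 2 ^ d.primeFactors.card * (((n0 / d : ℕ) : ℝ) + 1) := by push_cast; rfl
            _ ≤ 2 ^ d.primeFactors.card * (n0 / d + 1) := by
                have h6 := Nat.cast_div_le (α := ℝ) (m := n0) (n := d)
                gcongr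
        have h3 : (2 : ℝ) ^ d.primeFactors.card ≤ C4 * (d : ℝ) ^ ε :=
          (pow_le_pow_left₀ (by norm_num) (by norm_num) _).trans (h4 d hd0)
        have h5 : (2 : ℝ) ^ d.primeFactors.card * (n0 / d + 1) ≤
            C4 * (d : ℝ) ^ ε * (n0 / d + 1) :=
          mul_le_mul_of_nonneg_right h3 (by positivity)
        refine h2.trans (h5.trans ?_)
        have h6 : (d : ℝ) ^ ε * (n0 / d) = n0 * (d : ℝ) ^ (-(1 - ε)) := by
          rw [show -(1 - ε) = ε + -1 by ring, Real.rpow_add hd0', Real.rpow_neg_one]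
          ring
        have h7 : (d : ℝ) ^ ε ≤ A * n0 * (A * (n0 : ℝ) ^ 2) ^ (-(1 / 2 - ε)) := by
          have g1 : (d : ℝ) ^ ε ≤ (A * (n0 : ℝ) ^ 2) ^ ε :=
            Real.rpow_le_rpow hd0'.le hdY hε0.le
          have g2 : (A * (n0 : ℝ) ^ 2) ^ ε = (A * (n0 : ℝ) ^ 2) ^ (1 / 2 : ℝ) *
              (A * (n0 : ℝ) ^ 2) ^ (-(1 / 2 - ε)) := by
            rw [← Real.rpow_add hY0]
            congr 1
            ring
          have g3 : (A * (n0 : ℝ) ^ 2) ^ (1 / 2 : ℝ) ≤ A * n0 := by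
            rw [← Real.sqrt_eq_rpow, Real.sqrt_le_left (by positivity)]
            have : (A : ℝ) ≤ (A : ℝ) ^ 2 := by nlinarith
            nlinarith [sq_nonneg (n0 : ℝ)]
          rw [g2] at g1
          exact g1.trans (mul_le_mul_of_nonneg_right g3 (by positivity))
        calc C4 * (d : ℝ) ^ ε * (n0 / d + 1) = C4 * ((d : ℝ) ^ ε * (n0 / d)) +
              C4 * (d : ℝ) ^ ε := by ring
          _ = C4 * (n0 * (d : ℝ) ^ (-(1 - ε))) + C4 * (d : ℝ) ^ ε := by rw [h6]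
          _ ≤ C4 * (A * n0 * (d : ℝ) ^ (-(1 - ε))) +
              C4 * (A * n0 * (A * (n0 : ℝ) ^ 2) ^ (-(1 / 2 - ε))) := by
              have g4 : (n0 : ℝ) * (d : ℝ) ^ (-(1 - ε)) ≤ A * n0 * (d : ℝ) ^ (-(1 - ε)) := by
                have : (n0 : ℝ) ≤ A * n0 := le_mul_of_one_le_left hn1.le hA1'
                exact mul_le_mul_of_nonneg_right this (by positivity)
              have hC40 : 0 ≤ C4 := by linarith
              exact add_le_add (mul_le_mul_of_nonneg_left g4 hC40)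
                (mul_le_mul_of_nonneg_left h7 hC40)
          _ = C4 * A * n0 * ((d : ℝ) ^ (-(1 - ε)) +
              (A * (n0 : ℝ) ^ 2) ^ (-(1 / 2 - ε))) := by ring)
    have h2 : ∑ n ∈ (Finset.Icc 1 n0).filter (fun n : ℕ => f n ≠ 0),
        (H (f n).natAbs ((n0 : ℝ) ^ (3 * M)) : ℝ) ^ k ≤
        ∑ n ∈ (Finset.Icc 1 n0).filter (fun n : ℕ => f n ≠ 0),
          (H (f n).natAbs ((A * (n0 : ℝ) ^ 2) ^ M) : ℝ) ^ k := by
      apply Finset.sum_le_sum
      intro n hn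
      have h3 : (A * (n0 : ℝ) ^ 2) ^ M ≤ (n0 : ℝ) ^ (3 * M) := by
        rw [Real.rpow_mul hn1.le, show ((n0 : ℝ) ^ (3 : ℝ)) = (n0 : ℝ) ^ 3 by norm_cast]
        apply Real.rpow_le_rpow hY0.le _ (by linarith)
        nlinarith [sq_nonneg (n0 : ℝ)]
      have h4 := H_mono (f n).natAbs (hpos n hn) _ _ h3
      gcongr
    refine h2.trans (h1.trans ?_)
    have h3 : Real.log n0 ^ η ≤ Real.log (A * (n0 : ℝ) ^ 2) ^ η := by
      apply Real.rpow_le_rpow hl0.le _ hη0.le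
      apply Real.log_le_log hn1
      nlinarith
    calc C4 * A * (n0 : ℝ) * K0 / Real.log (A * (n0 : ℝ) ^ 2) ^ η
        ≤ C4 * A * (n0 : ℝ) * K0 / Real.log n0 ^ η :=
          div_le_div_of_nonneg_left (by positivity) (by positivity) h3
      _ ≤ (C4 * A * K0 + B) * n0 / Real.log n0 ^ η := by
          apply div_le_div_of_nonneg_right _ (by positivity)
          nlinarith

theorem natAbs_form_le (D : ℕ) (a : ℕ → ℤ) (x y n0 : ℕ) (hD : D ≤ 5) (hn0 : 1 ≤ n0)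
    (hx : x ≤ n0) (hy : y ≤ n0) :
    (form D a x y).natAbs ≤ (∑ i ∈ Finset.range (D + 1), (a i).natAbs) * n0 ^ 5 := by
  unfold form
  refine (Int.natAbs_sum_le _ _).trans ?_
  rw [Finset.sum_mul]
  apply Finset.sum_le_sum
  intro i hi
  rw [Finset.mem_range] at hi
  rw [Int.natAbs_mul, Int.natAbs_mul, Int.natAbs_pow, Int.natAbs_pow, Int.natAbs_natCast,
    Int.natAbs_natCast, mul_assoc]
  apply Nat.mul_le_mul_left
  calc x ^ i * y ^ (D - i) ≤ n0 ^ i * n0 ^ (D - i) :=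
        Nat.mul_le_mul (Nat.pow_le_pow_left hx _) (Nat.pow_le_pow_left hy _)
    _ = n0 ^ D := by rw [← pow_add]; congr 1; omega
    _ ≤ n0 ^ 5 := Nat.pow_le_pow_right hn0 hD

theorem binary_forms (k : ℕ) (hk : 1 ≤ k) (η : ℝ) (hη0 : 0 < η) (hη : η < 1 / 3) :
    ∃ M : ℝ, ∀ (D : ℕ) (a : ℕ → ℤ), D ≤ 5 →
      (∀ p : ℕ, p.Prime → ∃ i ≤ D, ¬ (p : ℤ) ∣ a i) → ∃ K : ℝ, ∀ n0 : ℕ, 2 ≤ n0 →
        ∑ t ∈ ((Finset.Icc 1 n0) ×ˢ (Finset.Icc 1 n0)).filter
            (fun t : ℕ × ℕ => t.1.Coprime t.2 ∧ form D a t.1 t.2 ≠ 0),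
          (H (form D a t.1 t.2).natAbs ((n0 : ℝ) ^ M) : ℝ) ^ k ≤
        K * (n0 : ℝ) ^ 2 / Real.log n0 ^ η := by
  classical
  obtain ⟨ε, hε⟩ : ∃ ε : ℝ, ε = min (1 / 3 - η) (1 / 20) := ⟨_, rfl⟩
  have hε0 : 0 < ε := by rw [hε]; exact lt_min (by linarith) (by norm_num)
  have hε1 : ε ≤ 1 / 3 - η := by rw [hε]; exact min_le_left _ _
  have hε2 : ε ≤ 1 / 20 := by rw [hε]; exact min_le_right _ _
  obtain ⟨M, K0, hM, hK0, hsp⟩ := sparse (κ := ℕ × ℕ) k hk (1 - ε) (2 / 5 - ε) η (by linarith) hη0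
    (by linarith)
  obtain ⟨C4, hC4, h4⟩ := Pool.Agent.Lib.AbcS.four_pow_le (ε / 2) (by linarith)
  refine ⟨6 * M, fun D a hD ha => ?_⟩
  obtain ⟨A, hA⟩ : ∃ A : ℕ, A = ∑ i ∈ Finset.range (D + 1), (a i).natAbs := ⟨_, rfl⟩
  have hA1 : 1 ≤ A := by
    obtain ⟨i, hi, hpi⟩ := ha 2 Nat.prime_two
    have h1 : 1 ≤ (a i).natAbs := by
      rw [Nat.one_le_iff_ne_zero, Int.natAbs_ne_zero]
      intro h
      apply hpi
      rw [h]
      exact dvd_zero _
    rw [hA]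
    exact h1.trans (Finset.single_le_sum (f := fun i => (a i).natAbs) (fun _ _ => Nat.zero_le _)
      (Finset.mem_range.mpr (by omega)))
  have hA1' : (1 : ℝ) ≤ A := by exact_mod_cast hA1
  obtain ⟨f, hf⟩ : ∃ f : ℕ × ℕ → ℤ, f = fun t => form D a t.1 t.2 := ⟨_, rfl⟩
  have hgoal : ∀ t : ℕ × ℕ, form D a t.1 t.2 = f t := fun t => by rw [hf]
  simp only [hgoal]
  obtain ⟨B, hB⟩ : ∃ B : ℝ, B = ∑ t ∈ ((Finset.Icc 1 A) ×ˢ (Finset.Icc 1 A)).filter
      (fun t : ℕ × ℕ => t.1.Coprime t.2 ∧ f t ≠ 0), (N (f t).natAbs : ℝ) ^ k := ⟨_, rfl⟩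
  have hB0 : 0 ≤ B := by rw [hB]; exact Finset.sum_nonneg (fun n _ => by positivity)
  refine ⟨2 * C4 ^ 2 * A * K0 + B, fun n0 hn0 => ?_⟩
  have hn2 : (2 : ℝ) ≤ n0 := by exact_mod_cast hn0
  have hn1 : (0 : ℝ) < n0 := by linarith
  have hl0 : 0 < Real.log n0 := Real.log_pos (by linarith)
  have hlog := log_rpow_le n0 hn0 η hη0 hη
  have hC40 : 0 < C4 := by linarith
  have hCAK : 0 ≤ 2 * C4 ^ 2 * A * K0 := by positivity
  obtain ⟨I, hI⟩ : ∃ I : Finset (ℕ × ℕ), I = ((Finset.Icc 1 n0) ×ˢ (Finset.Icc 1 n0)).filter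
      (fun t : ℕ × ℕ => t.1.Coprime t.2 ∧ f t ≠ 0) := ⟨_, rfl⟩
  rw [← hI]
  have hpos : ∀ t ∈ I, 1 ≤ (f t).natAbs := by
    intro t ht
    rw [hI, Finset.mem_filter] at ht
    exact Int.natAbs_pos.mpr ht.2.2
  have hn0n : (n0 : ℝ) ≤ (n0 : ℝ) ^ 2 := by nlinarith
  rcases Nat.lt_or_ge n0 A with hlt | hge
  · -- few values
    have h1 : ∑ t ∈ I, (H (f t).natAbs ((n0 : ℝ) ^ (6 * M)) : ℝ) ^ k ≤ B := by
      rw [hB]
      refine le_trans (Finset.sum_le_sum (fun t ht => ?_)) (Finset.sum_le_sum_of_subset_of_nonneg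
        (by
          rw [hI]
          apply Finset.filter_subset_filter
          exact Finset.product_subset_product (Finset.Icc_subset_Icc_right hlt.le)
            (Finset.Icc_subset_Icc_right hlt.le))
        (fun n _ _ => by positivity))
      have h2 := H_le_N (f t).natAbs (hpos t ht) ((n0 : ℝ) ^ (6 * M))
      gcongr
    have h2 : 1 ≤ (n0 : ℝ) ^ 2 / Real.log n0 ^ η := by
      rw [le_div_iff₀ (by positivity), one_mul]
      exact hlog.trans hn0n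
    calc ∑ t ∈ I, (H (f t).natAbs ((n0 : ℝ) ^ (6 * M)) : ℝ) ^ k ≤ B * 1 := by linarith
      _ ≤ (2 * C4 ^ 2 * A * K0 + B) * ((n0 : ℝ) ^ 2 / Real.log n0 ^ η) :=
          mul_le_mul (by linarith) h2 (by norm_num) (by linarith)
      _ = _ := by ring
  · have hge' : (A : ℝ) ≤ n0 := by exact_mod_cast hge
    have hn5 : (n0 : ℝ) ≤ (n0 : ℝ) ^ 5 := by
      calc (n0 : ℝ) = (n0 : ℝ) ^ 1 := (pow_one _).symm
        _ ≤ (n0 : ℝ) ^ 5 := pow_le_pow_right₀ (by linarith) (by norm_num)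
    have hYn : (n0 : ℝ) ≤ A * (n0 : ℝ) ^ 5 := by nlinarith
    have hY : (2 : ℝ) ≤ A * (n0 : ℝ) ^ 5 := hn2.trans hYn
    have hY0 : (0 : ℝ) < A * (n0 : ℝ) ^ 5 := by linarith
    have h1 := hsp (A * (n0 : ℝ) ^ 5) (2 * C4 ^ 2 * A * (n0 : ℝ) ^ 2)
      I (fun t => (f t).natAbs) hY
      (by positivity) (by
        intro t ht
        refine ⟨hpos t ht, ?_⟩
        rw [hI, Finset.mem_filter, Finset.mem_product, Finset.mem_Icc, Finset.mem_Icc] at ht
        have h2 := natAbs_form_le D a t.1 t.2 n0 hD (by omega) ht.1.1.2 ht.1.2.2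
        rw [hgoal, ← hA] at h2
        exact_mod_cast h2) (by
        intro d hdY hds
        have hd0 : 0 < d := Nat.pos_of_ne_zero hds.ne_zero
        have hd0' : (0 : ℝ) < d := by exact_mod_cast hd0
        have h2 : ((I.filter (fun t => d ∣ (f t).natAbs)).card : ℝ) ≤
            (D + 1) ^ d.primeFactors.card * (2 * (n0 : ℝ) ^ 2 / d + 2) := by
          have h3 := Pool.Agent.Lib.AbcU.binary_count a ha n0 hds
          refine le_trans ?_ h3
          have h5 : I.filter (fun t => d ∣ (f t).natAbs) ⊆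
              ((Finset.Icc 1 n0) ×ˢ (Finset.Icc 1 n0)).filter (fun t : ℕ × ℕ =>
                t.1.Coprime t.2 ∧ (d : ℤ) ∣ Pool.Agent.Lib.AbcU.bform D a t) := by
            intro t ht
            rw [hI, Finset.mem_filter, Finset.mem_filter] at ht
            rw [Finset.mem_filter]
            refine ⟨ht.1.1, ht.1.2.1, ?_⟩
            have h6 := Int.natCast_dvd.mpr ht.2
            rw [hf] at h6
            exact h6
          exact_mod_cast Finset.card_le_card h5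
        have h3 : ((D : ℝ) + 1) ^ d.primeFactors.card ≤ C4 ^ 2 * (d : ℝ) ^ ε := by
          have g1 : ((D : ℝ) + 1) ≤ 4 ^ 2 := by
            have : (D : ℝ) ≤ 5 := by exact_mod_cast hD
            linarith
          have g2 := h4 d hd0
          calc ((D : ℝ) + 1) ^ d.primeFactors.card ≤ (4 ^ 2) ^ d.primeFactors.card :=
                pow_le_pow_left₀ (by positivity) g1 _
            _ = (4 ^ d.primeFactors.card) ^ 2 := by rw [← pow_mul, ← pow_mul, mul_comm]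
            _ ≤ (C4 * (d : ℝ) ^ (ε / 2)) ^ 2 := pow_le_pow_left₀ (by positivity) g2 2
            _ = C4 ^ 2 * ((d : ℝ) ^ (ε / 2)) ^ 2 := by ring
            _ = C4 ^ 2 * (d : ℝ) ^ ε := by
                rw [← Real.rpow_natCast ((d : ℝ) ^ (ε / 2)) 2, ← Real.rpow_mul hd0'.le]
                congr 2
                push_cast
                ring
        refine h2.trans ((mul_le_mul_of_nonneg_right h3 (by positivity)).trans ?_)
        have h6 : (d : ℝ) ^ ε * ((n0 : ℝ) ^ 2 / d) = (n0 : ℝ) ^ 2 * (d : ℝ) ^ (-(1 - ε)) := by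
          rw [show -(1 - ε) = ε + -1 by ring, Real.rpow_add hd0', Real.rpow_neg_one]
          ring
        have h7 : (d : ℝ) ^ ε ≤ A * (n0 : ℝ) ^ 2 * (A * (n0 : ℝ) ^ 5) ^ (-(2 / 5 - ε)) := by
          have g1 : (d : ℝ) ^ ε ≤ (A * (n0 : ℝ) ^ 5) ^ ε :=
            Real.rpow_le_rpow hd0'.le hdY hε0.le
          have g2 : (A * (n0 : ℝ) ^ 5) ^ ε = (A * (n0 : ℝ) ^ 5) ^ (2 / 5 : ℝ) *
              (A * (n0 : ℝ) ^ 5) ^ (-(2 / 5 - ε)) := by
            rw [← Real.rpow_add hY0]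
            congr 1
            ring
          have g3 : (A * (n0 : ℝ) ^ 5) ^ (2 / 5 : ℝ) ≤ A * (n0 : ℝ) ^ 2 := by
            rw [Real.mul_rpow (by positivity) (by positivity), ← Real.rpow_natCast (n0 : ℝ) 5,
              ← Real.rpow_mul hn1.le]
            have g4 : (A : ℝ) ^ (2 / 5 : ℝ) ≤ A := by
              calc (A : ℝ) ^ (2 / 5 : ℝ) ≤ (A : ℝ) ^ (1 : ℝ) :=
                    Real.rpow_le_rpow_of_exponent_le hA1' (by norm_num)
                _ = A := Real.rpow_one _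
            have g5 : (n0 : ℝ) ^ (((5 : ℕ) : ℝ) * (2 / 5)) = (n0 : ℝ) ^ 2 := by
              rw [← Real.rpow_natCast (n0 : ℝ) 2]
              congr 1
              norm_num
            rw [g5]
            exact mul_le_mul_of_nonneg_right g4 (by positivity)
          rw [g2] at g1
          exact g1.trans (mul_le_mul_of_nonneg_right g3 (by positivity))
        calc C4 ^ 2 * (d : ℝ) ^ ε * (2 * (n0 : ℝ) ^ 2 / d + 2)
            = 2 * C4 ^ 2 * ((d : ℝ) ^ ε * ((n0 : ℝ) ^ 2 / d)) + 2 * C4 ^ 2 * (d : ℝ) ^ ε := by ring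
          _ = 2 * C4 ^ 2 * ((n0 : ℝ) ^ 2 * (d : ℝ) ^ (-(1 - ε))) + 2 * C4 ^ 2 * (d : ℝ) ^ ε := by
              rw [h6]
          _ ≤ 2 * C4 ^ 2 * (A * (n0 : ℝ) ^ 2 * (d : ℝ) ^ (-(1 - ε))) +
              2 * C4 ^ 2 * (A * (n0 : ℝ) ^ 2 * (A * (n0 : ℝ) ^ 5) ^ (-(2 / 5 - ε))) := by
              have g4 : (n0 : ℝ) ^ 2 * (d : ℝ) ^ (-(1 - ε)) ≤
                  A * (n0 : ℝ) ^ 2 * (d : ℝ) ^ (-(1 - ε)) := by
                have : (n0 : ℝ) ^ 2 ≤ A * (n0 : ℝ) ^ 2 :=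
                  le_mul_of_one_le_left (by positivity) hA1'
                exact mul_le_mul_of_nonneg_right this (by positivity)
              exact add_le_add (mul_le_mul_of_nonneg_left g4 (by positivity))
                (mul_le_mul_of_nonneg_left h7 (by positivity))
          _ = 2 * C4 ^ 2 * A * (n0 : ℝ) ^ 2 * ((d : ℝ) ^ (-(1 - ε)) +
              (A * (n0 : ℝ) ^ 5) ^ (-(2 / 5 - ε))) := by ring)
    have h2 : ∑ t ∈ I, (H (f t).natAbs ((n0 : ℝ) ^ (6 * M)) : ℝ) ^ k ≤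
        ∑ t ∈ I, (H (f t).natAbs ((A * (n0 : ℝ) ^ 5) ^ M) : ℝ) ^ k := by
      apply Finset.sum_le_sum
      intro t ht
      have h3 : (A * (n0 : ℝ) ^ 5) ^ M ≤ (n0 : ℝ) ^ (6 * M) := by
        rw [Real.rpow_mul hn1.le, show ((n0 : ℝ) ^ (6 : ℝ)) = (n0 : ℝ) ^ 6 by norm_cast]
        apply Real.rpow_le_rpow hY0.le _ (by linarith)
        calc (A : ℝ) * (n0 : ℝ) ^ 5 ≤ n0 * (n0 : ℝ) ^ 5 :=
              mul_le_mul_of_nonneg_right hge' (by positivity)
          _ = (n0 : ℝ) ^ 6 := by ring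
      have h4 := H_mono (f t).natAbs (hpos t ht) _ _ h3
      gcongr
    refine h2.trans (h1.trans ?_)
    have h3 : Real.log n0 ^ η ≤ Real.log (A * (n0 : ℝ) ^ 5) ^ η := by
      apply Real.rpow_le_rpow hl0.le _ hη0.le
      exact Real.log_le_log hn1 hYn
    calc 2 * C4 ^ 2 * A * (n0 : ℝ) ^ 2 * K0 / Real.log (A * (n0 : ℝ) ^ 5) ^ η
        ≤ 2 * C4 ^ 2 * A * (n0 : ℝ) ^ 2 * K0 / Real.log n0 ^ η :=
          div_le_div_of_nonneg_left (by positivity) (by positivity) h3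
      _ ≤ (2 * C4 ^ 2 * A * K0 + B) * (n0 : ℝ) ^ 2 / Real.log n0 ^ η := by
          apply div_le_div_of_nonneg_right _ (by positivity)
          nlinarith [sq_nonneg (n0 : ℝ)]

/-- The triples with `c ≥ rad(abc) ^ M`. -/
def Viol (M : ℝ) : Set Triple := {t | (rad (t.1.1 * t.1.2.1 * t.1.2.2) : ℝ) ^ M ≤ t.1.2.2}

/-- The sum of the inverse powers of the radicals of all the triples. -/
theorem summable_rd (σ : ℝ) (hσ : 2 / 3 < σ) : Summable (fun t : Triple => (rd (e t) : ℝ) ^ (-σ)) := by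
  have h1 := Pool.Agent.Lib.AbcU.summable_L (fun t : Triple => rd (e t)) 1 σ (D_ne_top 1 σ hσ)
  have h3 := h1.comp_injective (i := fun i : Triple => (fun _ : Fin 1 => i)) (by
    intro i j hij
    exact congrFun hij 0)
  refine h3.congr (fun i => ?_)
  simp only [Function.comp]
  congr 2
  apply Nat.dvd_antisymm
  · rw [Pool.Agent.Lib.AbcU.L_dvd]
    intro _
    exact dvd_rfl
  · exact (Pool.Agent.Lib.AbcU.L_dvd (fun t : Triple => rd (e t)) (fun _ : Fin 1 => i) _).mp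
      dvd_rfl 0

open Classical in
/-- The sums over any family. -/
theorem all_sum (W : Set Triple) (σ : ℝ) (hσ : 2 / 3 < σ) :
    ∑' t : Triple, (if t ∈ W then ENNReal.ofReal ((rd (e t) : ℝ) ^ (-σ)) else 0) ≠ ⊤ := by
  have h1 : ∑' t : Triple, (if t ∈ W then ENNReal.ofReal ((rd (e t) : ℝ) ^ (-σ)) else 0) ≤
      ∑' t : Triple, ENNReal.ofReal ((rd (e t) : ℝ) ^ (-σ)) := by
    apply ENNReal.tsum_le_tsum
    intro t
    split_ifs
    · exact le_rfl
    · exact zero_le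
  apply ne_top_of_le_ne_top _ h1
  rw [← ENNReal.ofReal_tsum_of_nonneg (fun t => by positivity) (summable_rd σ hσ)]
  exact ENNReal.ofReal_ne_top

open Classical in
/-- The sums of the inverse powers of the radicals of the violators. -/
theorem viol_sum : (∃ M : ℝ → ℝ, ∀ s : ℝ, 1 / 3 < s → ∃ σ : ℝ, σ < s ∧
      ∑' t : Triple, (if t ∈ Viol (M s) then ENNReal.ofReal ((rd (e t) : ℝ) ^ (-σ)) else 0) ≠ ⊤) ∧
    ∀ s m : ℝ, 3 / 5 < s → 1 - s < m → ∃ σ : ℝ, σ < s ∧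
      ∑' t : Triple, (if t ∈ Viol m then ENNReal.ofReal ((rd (e t) : ℝ) ^ (-σ)) else 0) ≠ ⊤ := by
  obtain ⟨f, hf1, hf2, hlim, hmain⟩ := Pool.Agent.Lib.AbcX.violT_full
  have key : ∀ M σ : ℝ, 1 / 3 < M → f M < σ →
      ∑' t : Triple, (if t ∈ Viol M then ENNReal.ofReal ((rd (e t) : ℝ) ^ (-σ)) else 0) ≠ ⊤ := by
    intro M σ hM hσ
    obtain ⟨ε, hε⟩ : ∃ ε : ℝ, ε = (σ - f M) / 2 := ⟨_, rfl⟩
    have hε0 : 0 < ε := by linarith
    have hf0 : 1 / 3 ≤ f M := by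
      rcases le_total M (2 / 5) with h | h
      · rw [hf1 M h]
        linarith
      · exact (hf2 M h).1
    obtain ⟨Y0, hY0⟩ := (hmain M ε hM hε0).exists_forall_of_atTop
    obtain ⟨θ, hθ⟩ : ∃ θ : ℝ, θ = f M + ε := ⟨_, rfl⟩
    have hθ0 : 0 ≤ θ := by linarith
    obtain ⟨Y1, hY1⟩ : ∃ Y1 : ℕ, Y1 = max Y0 1 := ⟨_, rfl⟩
    have hY11 : (1 : ℝ) ≤ Y1 := by
      have : 1 ≤ Y1 := by rw [hY1]; exact le_max_right _ _
      exact_mod_cast this
    have hcount : ∀ Y : ℕ, Y0 ≤ Y → ∀ T : Finset Triple,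
        (∀ t ∈ T, t ∈ Viol M ∧ rd (e t) ≤ Y) → (T.card : ℝ) ≤ (Y : ℝ) ^ θ := by
      intro Y hY T hT
      obtain ⟨h1, h2, _⟩ := hY0 Y hY
      rw [hθ]
      refine le_trans ?_ h2
      have h3 : ((T.map (Function.Embedding.subtype _) : Finset (ℕ × ℕ × ℕ)) :
          Set (ℕ × ℕ × ℕ)) ⊆ Pool.Agent.Lib.AbcX.violT M Y := by
        intro t ht
        rw [Finset.mem_coe, Finset.mem_map] at ht
        obtain ⟨u, hu, rfl⟩ := ht
        obtain ⟨g1, g2⟩ := hT u hu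
        rw [← rad_eq] at g2
        exact ⟨u.2, g2, g1⟩
      have h4 := Set.ncard_le_ncard h3 h1
      rw [Set.ncard_coe_finset, Finset.card_map] at h4
      exact_mod_cast h4
    apply Pool.Agent.Lib.AbcU.tsum_of_count (fun t : Triple => rd (e t)) R_pos (Viol M) θ σ
      ((Y1 : ℝ) ^ θ) hθ0 (by linarith)
    intro Y hY T hT
    have hY' : (1 : ℝ) ≤ (Y : ℝ) := by exact_mod_cast hY
    have hYθ : (1 : ℝ) ≤ (Y : ℝ) ^ θ := Real.one_le_rpow hY' hθ0
    have hY1θ : (1 : ℝ) ≤ (Y1 : ℝ) ^ θ := Real.one_le_rpow hY11 hθ0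
    rcases Nat.lt_or_ge Y Y0 with h | h
    · have hle : Y ≤ Y1 := h.le.trans (by rw [hY1]; exact le_max_left _ _)
      have h1 := hcount Y1 (by rw [hY1]; exact le_max_left _ _) T
        (fun t ht => ⟨(hT t ht).1, (hT t ht).2.trans hle⟩)
      nlinarith
    · have h1 := hcount Y h T hT
      nlinarith
  constructor
  · have hsel : ∀ s : ℝ, ∃ M : ℝ, 1 / 3 < s → 1 / 3 < M ∧ f M < s := by
      intro s
      rcases lt_or_ge (1 / 3) s with h' | h'
      · obtain ⟨M, hM1, hM2⟩ := ((hlim.eventually (gt_mem_nhds h')).and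
          (eventually_ge_atTop 1)).exists
        exact ⟨M, fun _ => ⟨by linarith, hM1⟩⟩
      · exact ⟨0, fun h'' => absurd h'' (not_lt.mpr h')⟩
    choose M hM using hsel
    refine ⟨M, fun s hs => ?_⟩
    obtain ⟨h1, h2⟩ := hM s hs
    exact ⟨(f (M s) + s) / 2, by linarith, key (M s) _ h1 (by linarith)⟩
  · intro s m hs hm
    rcases lt_or_ge (2 / 3) s with h | h
    · -- all the triples
      exact ⟨(2 / 3 + s) / 2, by linarith, all_sum _ _ (by linarith)⟩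
    · have hm3 : 1 / 3 < m := by linarith
      have hfm : f m < s := by
        rcases le_total m (2 / 5) with h' | h'
        · rw [hf1 m h']
          linarith
        · exact (hf2 m h').2.trans_lt hs
      exact ⟨(f m + s) / 2, by linarith, key m _ hm3 (by linarith)⟩

open MeasureTheory ProbabilityTheory in
open Classical in
/-- Borel-Cantelli: a family of triples with convergent sum has almost surely only finitely many
members composed of primes of the random set. -/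
theorem random_family (W : Set Triple) (s σ C : ℝ) (hσ : σ < s)
    (hfin : ∑' t : Triple, (if t ∈ W then ENNReal.ofReal ((rd (e t) : ℝ) ^ (-σ)) else 0) ≠ ⊤)
    (Ω : Type) (mΩ : MeasurableSpace Ω) (μ : Measure Ω) (S : Ω → Set ℕ) (hC1 : 1 ≤ C)
    (hpr : ∀ G : Finset Nat.Primes, μ (⋂ p ∈ G, {ω | (p : ℕ) ∈ S ω}) ≤
      ∏ p ∈ G, ENNReal.ofReal (C * (p : ℝ) ^ (-s))) :
    ∀ᵐ ω ∂μ, {t : ℕ × ℕ × ℕ | t ∈ triples (S ω) ∧ ∃ h : AbcTriple t.1 t.2.1 t.2.2,
      (⟨t, h⟩ : Triple) ∈ W}.Finite := by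
  obtain ⟨K, hK1, hK⟩ := Pool.Agent.Lib.Pabc11.cb_pow_card_le C (s - σ) hC1 (by linarith)
  obtain ⟨A, hA⟩ : ∃ A : {t : Triple // t ∈ W} → Set Ω,
      A = fun t => {ω | ∀ p ∈ (t.1.1.1 * t.1.1.2.1 * t.1.1.2.2).primeFactors, p ∈ S ω} := ⟨_, rfl⟩
  have hle : ∀ t, μ (A t) ≤ ENNReal.ofReal K * ENNReal.ofReal ((rd (e t.1) : ℝ) ^ (-σ)) := by
    rintro ⟨t, ht⟩
    obtain ⟨F, hF⟩ : ∃ F : Finset ℕ, F = (t.1.1 * t.1.2.1 * t.1.2.2).primeFactors := ⟨_, rfl⟩
    have hFp : ∀ p ∈ F, p.Prime := fun p hp => by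
      rw [hF] at hp
      exact Nat.prime_of_mem_primeFactors hp
    obtain ⟨G, hG⟩ : ∃ G : Finset Nat.Primes, G = F.subtype Nat.Prime := ⟨_, rfl⟩
    have hAt : A ⟨t, ht⟩ ⊆ ⋂ p ∈ G, {ω | (p : ℕ) ∈ S ω} := by
      intro ω hω
      rw [hA] at hω
      simp only [Set.mem_iInter]
      intro p hp
      rw [hG] at hp
      have hp2 : (p : ℕ) ∈ F := Finset.mem_subtype.mp hp
      rw [hF] at hp2
      exact hω _ hp2
    have h3 : ∏ p ∈ G, ENNReal.ofReal (C * (p : ℝ) ^ (-s)) =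
        ∏ p ∈ F, ENNReal.ofReal (C * (p : ℝ) ^ (-s)) := by
      rw [hG]
      exact Finset.prod_subtype_of_mem (fun p : ℕ => ENNReal.ofReal (C * (p : ℝ) ^ (-s))) hFp
    have g1 : (rd (e t) : ℝ) = ∏ p ∈ F, (p : ℝ) := by
      rw [← rad_eq, rad, ← hF]
      push_cast
      rfl
    have hr0 : (0 : ℝ) < rd (e t) := by exact_mod_cast R_pos t
    have h5 : ∏ p ∈ F, ENNReal.ofReal (C * (p : ℝ) ^ (-s)) ≤
        ENNReal.ofReal (K * (rd (e t) : ℝ) ^ (-σ)) := by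
      rw [← ENNReal.ofReal_prod_of_nonneg (fun p _ => by positivity)]
      apply ENNReal.ofReal_le_ofReal
      rw [Finset.prod_mul_distrib, Finset.prod_const,
        Real.finsetProd_rpow _ _ (fun p _ => Nat.cast_nonneg p), ← g1]
      have g2 := hK F (fun p hp => (hFp p hp).two_le)
      rw [← g1] at g2
      calc C ^ F.card * (rd (e t) : ℝ) ^ (-s)
          ≤ K * (rd (e t) : ℝ) ^ (s - σ) * (rd (e t) : ℝ) ^ (-s) :=
            mul_le_mul_of_nonneg_right g2 (by positivity)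
        _ = K * (rd (e t) : ℝ) ^ (-σ) := by
            rw [mul_assoc, ← Real.rpow_add hr0]
            congr 2
            ring
    calc μ (A ⟨t, ht⟩) ≤ μ (⋂ p ∈ G, {ω | (p : ℕ) ∈ S ω}) := measure_mono hAt
      _ ≤ _ := hpr G
      _ = _ := h3
      _ ≤ _ := h5
      _ = _ := ENNReal.ofReal_mul (by linarith)
  have hsum : ∑' t, μ (A t) ≠ ⊤ := by
    have h1 : ∑' t, μ (A t) ≤ ENNReal.ofReal K * ∑' t : Triple, (if t ∈ W then
        ENNReal.ofReal ((rd (e t) : ℝ) ^ (-σ)) else 0) := by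
      refine (ENNReal.tsum_le_tsum hle).trans ?_
      rw [ENNReal.tsum_mul_left]
      gcongr
      rw [tsum_subtype (W) (fun t => ENNReal.ofReal ((rd (e t) : ℝ) ^ (-σ)))]
      apply le_of_eq
      apply tsum_congr
      intro t
      rw [Set.indicator_apply]
    exact ne_top_of_le_ne_top (ENNReal.mul_ne_top ENNReal.ofReal_ne_top hfin) h1
  filter_upwards [ae_finite_setOfPred_mem hsum] with ω hω
  have h1 := hω.image (fun t : {t : Triple // t ∈ W} => t.1.1)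
  apply h1.subset
  rintro t ⟨⟨g1, g2⟩, g3, g4⟩
  refine ⟨⟨⟨t, g3⟩, g4⟩, ?_, rfl⟩
  rw [hA]
  exact g2

open MeasureTheory ProbabilityTheory in
/-- Adding a finite set of primes. -/
theorem union_prob (s C0 : ℝ)
    (Ω : Type) (mΩ : MeasurableSpace Ω) (μ : Measure Ω) (S : Ω → Set ℕ)
    (hind : iIndepSet (fun p : Nat.Primes => {ω | (p : ℕ) ∈ S ω}) μ)
    (hprob0 : ∀ p : Nat.Primes, μ {ω | (p : ℕ) ∈ S ω} ≤ ENNReal.ofReal (C0 * (p : ℝ) ^ (-s)))
    (F : Finset ℕ) : ∃ C : ℝ, 1 ≤ C ∧ ∀ G : Finset Nat.Primes,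
      μ (⋂ p ∈ G, {ω | (p : ℕ) ∈ S ω ∪ F}) ≤ ∏ p ∈ G, ENNReal.ofReal (C * (p : ℝ) ^ (-s)) := by
  classical
  obtain ⟨B, hB⟩ : ∃ B : ℝ, B = ∑ q ∈ F, (q : ℝ) ^ s := ⟨_, rfl⟩
  have hB0 : 0 ≤ B := by rw [hB]; exact Finset.sum_nonneg (fun q _ => by positivity)
  obtain ⟨C, hC⟩ : ∃ C : ℝ, C = max C0 1 + B := ⟨_, rfl⟩
  have hC1 : 1 ≤ C := by
    have := le_max_right C0 1
    linarith
  have hC0 : C0 ≤ C := by
    have := le_max_left C0 1
    linarith
  refine ⟨C, hC1, fun G => ?_⟩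
  obtain ⟨G', hG'⟩ : ∃ G' : Finset Nat.Primes,
    G' = G.filter (fun p : Nat.Primes => (p : ℕ) ∉ F) := ⟨_, rfl⟩
  have h1 := (iIndepSet_iff _ _).mp hind G' (f := fun p => {ω | (p : ℕ) ∈ S ω})
    (fun p _ => MeasurableSpace.measurableSet_generateFrom (Set.mem_singleton _))
  have hsub : (⋂ p ∈ G, {ω | (p : ℕ) ∈ S ω ∪ F}) ⊆ ⋂ p ∈ G', {ω | (p : ℕ) ∈ S ω} := by
    intro ω hω
    simp only [Set.mem_iInter] at hω ⊢
    intro p hp
    rw [hG', Finset.mem_filter] at hp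
    rcases hω p hp.1 with h | h
    · exact h
    · exact absurd (Finset.mem_coe.mp h) hp.2
  calc μ (⋂ p ∈ G, {ω | (p : ℕ) ∈ S ω ∪ F}) ≤ μ (⋂ p ∈ G', {ω | (p : ℕ) ∈ S ω}) :=
        measure_mono hsub
    _ = ∏ p ∈ G', μ {ω | (p : ℕ) ∈ S ω} := h1
    _ ≤ ∏ p ∈ G', ENNReal.ofReal (C * (p : ℝ) ^ (-s)) := by
        apply Finset.prod_le_prod'
        intro p _
        refine (hprob0 p).trans (ENNReal.ofReal_le_ofReal ?_)
        exact mul_le_mul_of_nonneg_right hC0 (by positivity)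
    _ ≤ ∏ p ∈ G, ENNReal.ofReal (C * (p : ℝ) ^ (-s)) := by
        apply Finset.prod_le_prod_of_subset_of_one_le'
        · rw [hG']
          exact Finset.filter_subset _ _
        · intro p hp hp'
          have hpF : (p : ℕ) ∈ F := by
            by_contra h
            apply hp'
            rw [hG', Finset.mem_filter]
            exact ⟨hp, h⟩
          have hp0 : (0 : ℝ) < (p : ℝ) := by exact_mod_cast p.2.pos
          have h2 : (p : ℝ) ^ s ≤ C := by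
            have h3 : (p : ℝ) ^ s ≤ B := by
              rw [hB]
              exact Finset.single_le_sum (f := fun q : ℕ => (q : ℝ) ^ s)
                (fun q _ => by positivity) hpF
            have := le_max_right C0 1
            linarith
          rw [← ENNReal.ofReal_one]
          apply ENNReal.ofReal_le_ofReal
          rw [Real.rpow_neg hp0.le, ← div_eq_mul_inv, le_div_iff₀ (by positivity), one_mul]
          exact h2

/-- A finite set of exceptions is covered by a larger exponent. -/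
theorem larger_exponent (M : ℝ) (F : Set (ℕ × ℕ × ℕ)) (hF : F.Finite) : ∃ M' : ℝ,
    ∀ a b c : ℕ, AbcTriple a b c → ((rad (a * b * c) : ℝ) ^ M ≤ c → (a, b, c) ∈ F) →
      (c : ℝ) < (rad (a * b * c) : ℝ) ^ M' := by
  obtain ⟨B, hB⟩ : ∃ B : ℝ, B = ∑ t ∈ hF.toFinset, (t.2.2 : ℝ) := ⟨_, rfl⟩
  have hB0 : 0 ≤ B := by rw [hB]; exact Finset.sum_nonneg (fun _ _ => Nat.cast_nonneg _)
  refine ⟨|M| + B + 2, fun a b c h hmem => ?_⟩
  have hr2 : (2 : ℝ) ≤ rad (a * b * c) := by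
    obtain ⟨h1, h2, h3, h4, h5, h6, h7⟩ := h
    have hne : a * b * c ≠ 0 := by positivity
    have h2dvd : 2 ∣ a * b * c := by
      rcases Nat.even_or_odd a with ha | ha
      · exact (ha.two_dvd.mul_right b).mul_right c
      · rcases Nat.even_or_odd b with hb | hb
        · exact (hb.two_dvd.mul_left a).mul_right c
        · have hc : Even c := by rw [← h7]; exact ha.add_odd hb
          exact hc.two_dvd.mul_left (a * b)
    have h8 : 2 ∈ (a * b * c).primeFactors := Nat.mem_primeFactors.mpr ⟨Nat.prime_two, h2dvd, hne⟩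
    have h9 : 2 ∣ rad (a * b * c) := Finset.dvd_prod_of_mem _ h8
    have h10 : 0 < rad (a * b * c) :=
      Finset.prod_pos (fun p hp => (Nat.prime_of_mem_primeFactors hp).pos)
    exact_mod_cast Nat.le_of_dvd h10 h9
  have hr1 : (1 : ℝ) ≤ rad (a * b * c) := by linarith
  by_cases hc : (rad (a * b * c) : ℝ) ^ M ≤ c
  · have h1 := hmem hc
    have h2 : (c : ℝ) ≤ B := by
      rw [hB]
      exact Finset.single_le_sum (f := fun t : ℕ × ℕ × ℕ => (t.2.2 : ℝ))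
        (fun _ _ => Nat.cast_nonneg _) (hF.mem_toFinset.mpr h1)
    have h3 : (c : ℝ) < 2 ^ (|M| + B + 2) := by
      have h4 : 1 + (|M| + B + 2) < 2 ^ (|M| + B + 2) := by
        have h5 := one_add_mul_self_lt_rpow_one_add (s := 1) (by norm_num) (by norm_num)
          (p := |M| + B + 2) (by have := abs_nonneg M; linarith)
        have h6 : (1 + 1 : ℝ) = 2 := by norm_num
        rwa [h6, mul_one] at h5
      have := abs_nonneg M
      linarith
    exact h3.trans_le (Real.rpow_le_rpow (by norm_num) hr2 (by have := abs_nonneg M; linarith))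
  · rw [not_le] at hc
    refine hc.trans_le (Real.rpow_le_rpow_of_exponent_le hr1 ?_)
    have := le_abs_self M
    linarith

theorem rad_pos (n : ℕ) : 1 ≤ rad n :=
  Finset.prod_pos (fun _ hp => (Nat.prime_of_mem_primeFactors hp).pos)

theorem above_anti (T : Set ℕ) {m m' : ℝ} (h : m ≤ m') : above T m' ⊆ above T m := by
  rintro t ⟨h1, h2⟩
  refine ⟨h1, le_trans ?_ h2⟩
  apply Real.rpow_le_rpow_of_exponent_le _ h
  exact_mod_cast rad_pos _

open MeasureTheory ProbabilityTheory in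
theorem random_upper : ∃ M : ℝ → ℝ, ∀ s C : ℝ, 1 / 3 < s →
      ∀ (Ω : Type) (_ : MeasurableSpace Ω) (μ : Measure Ω) (S : Ω → Set ℕ),
        iIndepSet (fun p : Nat.Primes => {ω | (p : ℕ) ∈ S ω}) μ →
        (∀ p : Nat.Primes, μ {ω | (p : ℕ) ∈ S ω} ≤ ENNReal.ofReal (C * (p : ℝ) ^ (-s))) →
        ∀ᵐ ω ∂μ, ∀ F : Finset ℕ, (above (S ω ∪ F) (M s)).Finite ∧
          (∃ M' : ℝ, ∀ a b c : ℕ, (a, b, c) ∈ triples (S ω ∪ F) →
            (c : ℝ) < (rad (a * b * c) : ℝ) ^ M') ∧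
          (3 / 5 < s → ∀ m : ℝ, 1 - s < m → (above (S ω ∪ F) m).Finite) ∧
          (2 / 3 < s → (triples (S ω ∪ F)).Finite) := by
  classical
  obtain ⟨⟨M, hM⟩, hV⟩ := viol_sum
  refine ⟨M, fun s C0 hs Ω mΩ μ S hind hprob0 => ?_⟩
  have hfamily : ∀ (W : Set Triple) (σ : ℝ), σ < s →
      ∑' t : Triple, (if t ∈ W then ENNReal.ofReal ((rd (e t) : ℝ) ^ (-σ)) else 0) ≠ ⊤ →
      ∀ᵐ ω ∂μ, ∀ F : Finset ℕ, {t : ℕ × ℕ × ℕ | t ∈ triples (S ω ∪ F) ∧
        ∃ h : AbcTriple t.1 t.2.1 t.2.2, (⟨t, h⟩ : Triple) ∈ W}.Finite := by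
    intro W σ hσ hfin
    rw [ae_all_iff]
    intro F
    obtain ⟨C, hC1, hpr⟩ := union_prob s C0 Ω mΩ μ S hind hprob0 F
    exact random_family W s σ C hσ hfin Ω mΩ μ (fun ω => S ω ∪ F) hC1 hpr
  have hfam : ∀ (m σ : ℝ), σ < s →
      ∑' t : Triple, (if t ∈ Viol m then ENNReal.ofReal ((rd (e t) : ℝ) ^ (-σ)) else 0) ≠ ⊤ →
      ∀ᵐ ω ∂μ, ∀ F : Finset ℕ, (above (S ω ∪ F) m).Finite := by
    intro m σ hσ hfin
    filter_upwards [hfamily (Viol m) σ hσ hfin] with ω hω F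
    apply (hω F).subset
    rintro t ⟨h1, h2⟩
    exact ⟨h1, h1.1, h2⟩
  obtain ⟨σ, hσ, hfin⟩ := hM s hs
  have hA := hfam (M s) σ hσ hfin
  have hB : ∀ᵐ ω ∂μ, ∀ F : Finset ℕ, 3 / 5 < s → ∀ m : ℝ, 1 - s < m →
      (above (S ω ∪ F) m).Finite := by
    by_cases h35 : 3 / 5 < s
    · have h1 : ∀ q : ℚ, ∀ᵐ ω ∂μ, 1 - s < (q : ℝ) →
          ∀ F : Finset ℕ, (above (S ω ∪ F) q).Finite := by
        intro q
        by_cases hq : 1 - s < (q : ℝ)
        · obtain ⟨σ', hσ', hfin'⟩ := hV s q h35 hq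
          filter_upwards [hfam q σ' hσ' hfin'] with ω hω _
          exact hω
        · exact Filter.Eventually.of_forall (fun ω h => absurd h hq)
      filter_upwards [ae_all_iff.mpr h1] with ω hω F _ m hm
      obtain ⟨q, hq1, hq2⟩ := exists_rat_btwn hm
      exact (hω q hq1 F).subset (above_anti _ hq2.le)
    · exact Filter.Eventually.of_forall (fun ω _ h => absurd h h35)
  have hC : ∀ᵐ ω ∂μ, ∀ F : Finset ℕ, 2 / 3 < s → (triples (S ω ∪ F)).Finite := by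
    by_cases h23 : 2 / 3 < s
    · filter_upwards [hfamily Set.univ ((2 / 3 + s) / 2) (by linarith)
        (all_sum _ _ (by linarith))] with ω hω F _
      apply (hω F).subset
      intro t h1
      exact ⟨h1, h1.1, Set.mem_univ _⟩
    · exact Filter.Eventually.of_forall (fun ω _ h => absurd h h23)
  filter_upwards [hA, hB, hC] with ω hωA hωB hωC F
  refine ⟨hωA F, ?_, hωB F, hωC F⟩
  obtain ⟨M', hM'⟩ := larger_exponent (M s) _ (hωA F)
  exact ⟨M', fun a b c h => hM' a b c h.1 (fun hc => ⟨h, hc⟩)⟩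

open MeasureTheory ProbabilityTheory in
theorem random_lower (s : ℝ) (hs0 : 0 < s) (hs : s < 2 / 3)
    (Ω : Type) (mΩ : MeasurableSpace Ω) (μ : Measure Ω) (S : Ω → Set ℕ)
    (hS : ∀ p : Nat.Primes, MeasurableSet {ω | (p : ℕ) ∈ S ω})
    (hind : iIndepSet (fun p : Nat.Primes => {ω | (p : ℕ) ∈ S ω}) μ)
    (hlarge : ∀ᶠ p : ℕ in atTop,
      p.Prime → μ {ω | p ∈ S ω} = ENNReal.ofReal ((p : ℝ) ^ (-s))) :
    ∀ᵐ ω ∂μ, ∀ F : Finset ℕ, 2 ∈ F →
      ∀ m : ℝ, m < 1 - s → (above (S ω ∪ F) m).Infinite := by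
  obtain ⟨P0, hP0⟩ := eventually_atTop.mp hlarge
  have hodd : ∀ p : Nat.Primes, P0 < (p : ℕ) →
      μ {ω | (p : ℕ) ∈ S ω} = ENNReal.ofReal ((p : ℝ) ^ (-s)) :=
    fun p hp => hP0 p hp.le p.2
  have h1 : ∀ q : ℚ, ∀ᵐ ω ∂μ, (q : ℝ) < 1 - s →
      ∀ F : Finset ℕ, 2 ∈ F → (above (S ω ∪ F) q).Infinite := by
    intro q
    by_cases hq : (q : ℝ) < 1 - s
    · filter_upwards [Pool.Agent.Lib.AbcU.ae_infinite_quality s hs0 hs q hq μ S hS hind
          P0 hodd]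
        with ω hω _ F h2
      have h3 := hω.image (f := fun t : ℕ × ℕ => (t.1, t.2, t.1 + t.2)) (by
        rintro ⟨a, b⟩ _ ⟨a', b'⟩ _ h
        simp only [Prod.mk.injEq] at h
        rw [h.1, h.2.1])
      apply h3.mono
      rintro _ ⟨⟨a, b⟩, ⟨ha, hb, hab, hp, hr⟩, rfl⟩
      refine ⟨⟨⟨ha, hb, Nat.add_pos_left ha b, hab, ?_, ?_, rfl⟩, ?_⟩, hr⟩
      · simpa using hab
      · simpa using hab.symm
      · intro p hp'
        by_cases hp2 : p = 2
        · right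
          rw [hp2]
          exact h2
        · exact Or.inl (hp p hp' hp2)
    · exact Filter.Eventually.of_forall (fun ω h => absurd h hq)
  filter_upwards [ae_all_iff.mpr h1] with ω hω F h2 m hm1
  obtain ⟨q, hq1, hq2⟩ := exists_rat_btwn hm1
  exact (hω q hq2 F h2).mono (above_anti _ hq1.le)

open MeasureTheory ProbabilityTheory in
/-- (1) Random infinite sets of primes. (2) The set of the primes of `r`, for almost all `r` of a
short interval, among the values of a quadratic polynomial, among the values of a binary form of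
degree at most `5`. (3) The moments and the limiting distribution of the number `N r` of the
abc-triples composed of primes of `r`. -/
theorem result :
    -- (1) random infinite sets of primes
    ((∃ M : ℝ → ℝ, ∀ s C : ℝ, 1 / 3 < s →
      ∀ (Ω : Type) (_ : MeasurableSpace Ω) (μ : Measure Ω) (S : Ω → Set ℕ),
        iIndepSet (fun p : Nat.Primes => {ω | (p : ℕ) ∈ S ω}) μ →
        (∀ p : Nat.Primes, μ {ω | (p : ℕ) ∈ S ω} ≤ ENNReal.ofReal (C * (p : ℝ) ^ (-s))) →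
        ∀ᵐ ω ∂μ, ∀ F : Finset ℕ, (above (S ω ∪ F) (M s)).Finite ∧
          (∃ M' : ℝ, ∀ a b c : ℕ, (a, b, c) ∈ triples (S ω ∪ F) →
            (c : ℝ) < (rad (a * b * c) : ℝ) ^ M') ∧
          (3 / 5 < s → ∀ m : ℝ, 1 - s < m → (above (S ω ∪ F) m).Finite) ∧
          (2 / 3 < s → (triples (S ω ∪ F)).Finite)) ∧
      (∀ s : ℝ, 0 < s → s < 2 / 3 →
        ∀ (Ω : Type) (_ : MeasurableSpace Ω) (μ : Measure Ω) (S : Ω → Set ℕ),
          (∀ p : Nat.Primes, MeasurableSet {ω | (p : ℕ) ∈ S ω}) →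
          iIndepSet (fun p : Nat.Primes => {ω | (p : ℕ) ∈ S ω}) μ →
          (∀ᶠ p : ℕ in atTop, p.Prime → μ {ω | p ∈ S ω} = ENNReal.ofReal ((p : ℝ) ^ (-s))) →
          ∀ᵐ ω ∂μ, ∀ F : Finset ℕ, 2 ∈ F →
            ∀ m : ℝ, m < 1 - s → (above (S ω ∪ F) m).Infinite)) ∧
    -- (2) the primes of almost all `r`
    ((∀ r : ℕ, 1 ≤ r → (sols r).Finite) ∧
      (∀ k : ℕ, 1 ≤ k → ∀ δ η : ℝ, 0 < δ → 0 < η → η < 1 / 3 → ∃ M K : ℝ, ∀ Y h : ℕ, 2 ≤ Y →
        (Y : ℝ) ^ (1 / 3 + δ) ≤ h → h ≤ Y →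
          ∑ r ∈ Finset.Ioc Y (Y + h), (H r ((r : ℝ) ^ M) : ℝ) ^ k ≤ K * h / Real.log Y ^ η) ∧
      (∀ k : ℕ, 1 ≤ k → ∀ η : ℝ, 0 < η → η < 1 / 3 → ∃ M : ℝ, ∀ a b c : ℤ,
        (∀ p : ℕ, p.Prime → ¬ ((p : ℤ) ∣ a ∧ (p : ℤ) ∣ b ∧ (p : ℤ) ∣ c)) →
          ∃ K : ℝ, ∀ n0 : ℕ, 2 ≤ n0 →
            ∑ n ∈ (Finset.Icc 1 n0).filter (fun n : ℕ => a * (n : ℤ) ^ 2 + b * n + c ≠ 0),
              (H (a * (n : ℤ) ^ 2 + b * n + c).natAbs ((n0 : ℝ) ^ M) : ℝ) ^ k ≤
            K * n0 / Real.log n0 ^ η) ∧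
      (∀ k : ℕ, 1 ≤ k → ∀ η : ℝ, 0 < η → η < 1 / 3 → ∃ M : ℝ, ∀ (D : ℕ) (a : ℕ → ℤ), D ≤ 5 →
        (∀ p : ℕ, p.Prime → ∃ i ≤ D, ¬ (p : ℤ) ∣ a i) → ∃ K : ℝ, ∀ n0 : ℕ, 2 ≤ n0 →
          ∑ t ∈ ((Finset.Icc 1 n0) ×ˢ (Finset.Icc 1 n0)).filter
              (fun t : ℕ × ℕ => t.1.Coprime t.2 ∧ form D a t.1 t.2 ≠ 0),
            (H (form D a t.1 t.2).natAbs ((n0 : ℝ) ^ M) : ℝ) ^ k ≤
          K * (n0 : ℝ) ^ 2 / Real.log n0 ^ η)) ∧
    -- (3) the number of the abc-triples composed of primes of `r`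
    ((∀ k : ℕ, Summable (fun s : Fin k → Triple => 1 / (lcmRad s : ℝ)) ∧
        ∀ ε : ℝ, 0 < ε → ∃ K : ℝ, ∀ Y : ℕ, 1 ≤ Y →
          |∑ r ∈ Finset.Icc 1 Y, (N r : ℝ) ^ k - E k * Y| ≤ K * (Y : ℝ) ^ (2 / 3 + ε)) ∧
      (∃ d : ℕ → ℝ, (∀ j : ℕ, Tendsto (fun Y : ℕ =>
        (((Finset.Icc 1 Y).filter (fun r => N r = j)).card : ℝ) / Y) atTop (𝓝 (d j))) ∧
          ∀ k : ℕ, HasSum (fun j : ℕ => (j : ℝ) ^ k * d j) (E k))) :=
  ⟨⟨random_upper, random_lower⟩, ⟨sols_finite, intervals, quadratic, binary_forms⟩,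
    ⟨fun k => ⟨summable_E k, moments k⟩, limit_law⟩⟩

end Pool.Agent.Results.MP_2ec8a3_nt.RandomSupports
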