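import Mathlib
import Pool.Agent.Lib.AbcT.Low
import Pool.Agent.Lib.AbcT.Mult
import Pool.Agent.Lib.AbcT.MultT
import Pool.Agent.Lib.AbcT.Viol
import Pool.Agent.Lib.AbcG.TailOf

open Filter WeierstrassCurve

namespace Pool.Agent.Results.MP_2ec8a3_nt.TwoTorsion

/-- All 2-torsion of `E` is rational: there are exactly four rational points `P` with `2P = 0`. -/
def FullTwo (E : WeierstrassCurve ℚ) : Prop :=
  {P : E.toAffine.Point | P + P = 0}.ncard = 4

/-- `E` has good reduction at `p`: a minimal Weierstrass equation over `ℤ_[p]` has good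
reduction. -/
def GoodAt (p : ℕ) [Fact p.Prime] (E : WeierstrassCurve ℚ) : Prop :=
  ((E.map (algebraMap ℚ ℚ_[p])).minimal ℤ_[p]).HasGoodReduction ℤ_[p]

/-- `E` has multiplicative reduction at `p`. -/
def MultAt (p : ℕ) [Fact p.Prime] (E : WeierstrassCurve ℚ) : Prop :=
  ((E.map (algebraMap ℚ ℚ_[p])).minimal ℤ_[p]).HasMultiplicativeReduction ℤ_[p]

/-- `E` is semistable: good or multiplicative reduction at every prime. -/
def Semistable (E : WeierstrassCurve ℚ) : Prop :=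
  ∀ (p : ℕ) [Fact p.Prime], GoodAt p E ∨ MultAt p E

open Classical in
/-- The exponent `0`, `1`, `2` if the reduction at `p` is good, multiplicative, additive. -/
noncomputable def exponent (p : ℕ) [Fact p.Prime] (E : WeierstrassCurve ℚ) : ℕ :=
  if GoodAt p E then 0 else if MultAt p E then 1 else 2

open Classical in
/-- The product of `p ^ exponent p E` over all primes: the conductor of a semistable curve. -/
noncomputable def conductor (E : WeierstrassCurve ℚ) : ℕ :=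
  ∏ᶠ p : ℕ, if h : p.Prime then haveI := Fact.mk h; p ^ exponent p E else 1

open Classical in
/-- The product of `p ^ exponent p E` over the odd primes: the part of the conductor away from 2
of a curve with full rational 2-torsion. -/
noncomputable def oddConductor (E : WeierstrassCurve ℚ) : ℕ :=
  ∏ᶠ p : ℕ, if h : p.Prime ∧ p ≠ 2 then haveI := Fact.mk h.1; p ^ exponent p E else 1

/-- `E` has a Weierstrass equation with integer coefficients and `|discriminant| < B`; that is,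
`|minimal discriminant| < B`. -/
def DiscLt (E : WeierstrassCurve ℚ) (B : ℝ) : Prop :=
  ∃ (W : WeierstrassCurve ℤ) (C : VariableChange ℚ),
    C • E = W.map (Int.castRingHom ℚ) ∧ |(W.Δ : ℝ)| < B

/-- The isomorphism classes over `ℚ` (orbits under changes of variables) of the elliptic curves
over `ℚ` with full rational 2-torsion and with the property `Q`. -/
def Classes (Q : WeierstrassCurve ℚ → Prop) : Set (Set (WeierstrassCurve ℚ)) :=
  {O | ∃ E : WeierstrassCurve ℚ, E.Δ ≠ 0 ∧ FullTwo E ∧ Q E ∧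
    O = MulAction.orbit (VariableChange ℚ) E}

/-- The semistable curves with full rational 2-torsion of conductor at most `X`. -/
def semistable (X : ℕ) : Set (Set (WeierstrassCurve ℚ)) :=
  Classes fun E => Semistable E ∧ conductor E ≤ X

/-- All curves with full rational 2-torsion of conductor away from 2 at most `X`. -/
def curves (X : ℕ) : Set (Set (WeierstrassCurve ℚ)) :=
  Classes fun E => oddConductor E ≤ X

/-- The semistable curves with full rational 2-torsion of conductor `n`. -/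
def semistableOf (n : ℕ) : Set (Set (WeierstrassCurve ℚ)) :=
  Classes fun E => Semistable E ∧ conductor E = n

/-- The curves with full rational 2-torsion of conductor away from 2 equal to `n`. -/
def curvesOf (n : ℕ) : Set (Set (WeierstrassCurve ℚ)) :=
  Classes fun E => oddConductor E = n

/-- The members of `semistable X` which violate `|minimal discriminant| < conductor ^ M`. -/
def semistableExceptions (M : ℝ) (X : ℕ) : Set (Set (WeierstrassCurve ℚ)) :=
  Classes fun E => Semistable E ∧ conductor E ≤ X ∧ ¬ DiscLt E ((conductor E : ℝ) ^ M)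

/-- The members of `curves X` which violate `|minimal discriminant| < oddConductor ^ M`. -/
def exceptions (M : ℝ) (X : ℕ) : Set (Set (WeierstrassCurve ℚ)) :=
  Classes fun E => oddConductor E ≤ X ∧ ¬ DiscLt E ((oddConductor E : ℝ) ^ M)

/-- The factor at `p` of the first constant. -/
noncomputable def factor₁ (p : ℕ) : ℝ :=
  (1 - 1 / (p : ℝ)) * (1 + 1 / (p : ℝ) + 3 * (p : ℝ) ^ (-(4 / 3) : ℝ) +
    3 * (p : ℝ) ^ (-(5 / 3) : ℝ))

/-- The factor at `p` of the second constant. -/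
noncomputable def factor₂ (p : ℕ) : ℝ :=
  (1 - 1 / (p : ℝ)) * (1 + 1 / (p : ℝ) + 4 * (p : ℝ) ^ (-(4 / 3) : ℝ) +
    6 * (p : ℝ) ^ (-(5 / 3) : ℝ) + 3 * (p : ℝ) ^ (-2 : ℝ) + (p : ℝ) ^ (-(7 / 3) : ℝ))

/-- The constant of the semistable curves; the product is over the odd primes. -/
noncomputable def C₁ : ℝ :=
  3 * (2 : ℝ) ^ (-(16 / 3) : ℝ) * (2 + (2 : ℝ) ^ (-(1 / 3) : ℝ) + (2 : ℝ) ^ (-(2 / 3) : ℝ)) *
    (Real.Gamma (1 / 3) ^ 2 / Real.Gamma (2 / 3)) *
      ∏' p : Nat.Primes, if (p : ℕ) = 2 then 1 else factor₁ p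

/-- The constant of all curves; the product is over the odd primes. -/
noncomputable def C₂ : ℝ :=
  (3 / 4 + 3 / 2 * ((2 : ℝ) ^ (-(1 / 3) : ℝ) + (2 : ℝ) ^ (-(2 / 3) : ℝ))) *
    (Real.Gamma (1 / 3) ^ 2 / Real.Gamma (2 / 3)) *
      ∏' p : Nat.Primes, if (p : ℕ) = 2 then 1 else factor₂ p

theorem tailHyp : Pool.Agent.Lib.AbcG.TailHyp := by
  apply Pool.Agent.Lib.AbcG.tailHyp_of
  obtain ⟨κ, hκ, h⟩ := Pool.Agent.Lib.AbcL.almost_all (1 / 1000) (by norm_num)
  exact ⟨κ, hκ, h⟩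

theorem C₁_eq : C₁ = Pool.Agent.Lib.AbcT.CS / 2 := by
  have h : (2 : ℝ) ^ (-(16 / 3) : ℝ) = 1 / 16 * (2 : ℝ) ^ (-(4 / 3) : ℝ) := by
    rw [show (-(16 / 3) : ℝ) = ((-4 : ℤ) : ℝ) + -(4 / 3) by norm_num, Real.rpow_add two_pos,
      Real.rpow_intCast]
    norm_num
  unfold C₁ Pool.Agent.Lib.AbcT.CS Pool.Agent.Lib.AbcG.c0
  rw [h]
  have hf : factor₁ = Pool.Agent.Lib.AbcT.fP := rfl
  rw [hf]
  have hG : Real.Gamma (2 / 3) ≠ 0 := (Real.Gamma_pos_of_pos (by norm_num)).ne'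
  field_simp
  ring

theorem C₂_eq : C₂ = Pool.Agent.Lib.AbcT.CE := by
  unfold C₂ Pool.Agent.Lib.AbcT.CE Pool.Agent.Lib.AbcG.c0 Pool.Agent.Lib.AbcT.gP
  have hf : factor₂ = Pool.Agent.Lib.AbcT.eP := rfl
  rw [hf]
  have hG : Real.Gamma (2 / 3) ≠ 0 := (Real.Gamma_pos_of_pos (by norm_num)).ne'
  push_cast
  field_simp
  ring

/-- **Elliptic curves over `ℚ` with full rational 2-torsion, ordered by conductor.**
* The Euler products converge and `C₁, C₂ > 0`.
* For every `X` finitely many isomorphism classes are semistable of conductor at most `X`, or have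
  conductor away from 2 at most `X`; their numbers are `C₁ X^(2/3)` and `C₂ X^(2/3)` up to
  `X^(2/3 - κ)`.
* The number of the `n ≤ X` which are the conductor of exactly one semistable class, and of those
  which are the conductor of some semistable class, is `C₁ X^(2/3)` up to `X^(2/3 - κ)`; the number
  of the `n ≤ X` which are the conductor away from 2 of exactly four classes, and of those which are
  the conductor away from 2 of some class, is `C₂ / 4 X^(2/3)` up to `X^(2/3 - κ)`.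
* For every `M > 2` at most `X^(2/3 - κ)` of these classes violate Szpiro's inequality with the
  exponent `M`; for every `ε > 0` there is `M` such that at most `X^(1/3 + ε)` (semistable) and
  `X^(1/2 + ε)` (all) do.
* The minimal discriminant is always at least the square of the conductor away from 2, and at least
  the square of the conductor if the curve is semistable. -/
theorem result :
    (Multipliable fun p : Nat.Primes => if (p : ℕ) = 2 then 1 else factor₁ p) ∧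
    (Multipliable fun p : Nat.Primes => if (p : ℕ) = 2 then 1 else factor₂ p) ∧
    0 < C₁ ∧ 0 < C₂ ∧
    (∀ X : ℕ, (semistable X).Finite ∧ (curves X).Finite) ∧
    (∃ κ : ℝ, 0 < κ ∧ ∀ᶠ X : ℕ in atTop,
      |((semistable X).ncard : ℝ) - C₁ * (X : ℝ) ^ (2 / 3 : ℝ)| ≤ (X : ℝ) ^ (2 / 3 - κ) ∧
      |((curves X).ncard : ℝ) - C₂ * (X : ℝ) ^ (2 / 3 : ℝ)| ≤ (X : ℝ) ^ (2 / 3 - κ)) ∧
    (∃ κ : ℝ, 0 < κ ∧ ∀ᶠ X : ℕ in atTop,
      |({n : ℕ | n ≤ X ∧ (semistableOf n).ncard = 1}.ncard : ℝ) - C₁ * (X : ℝ) ^ (2 / 3 : ℝ)| ≤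
        (X : ℝ) ^ (2 / 3 - κ) ∧
      |({n : ℕ | n ≤ X ∧ (semistableOf n).Nonempty}.ncard : ℝ) - C₁ * (X : ℝ) ^ (2 / 3 : ℝ)| ≤
        (X : ℝ) ^ (2 / 3 - κ) ∧
      |({n : ℕ | n ≤ X ∧ (curvesOf n).ncard = 4}.ncard : ℝ) - C₂ / 4 * (X : ℝ) ^ (2 / 3 : ℝ)| ≤
        (X : ℝ) ^ (2 / 3 - κ) ∧
      |({n : ℕ | n ≤ X ∧ (curvesOf n).Nonempty}.ncard : ℝ) - C₂ / 4 * (X : ℝ) ^ (2 / 3 : ℝ)| ≤
        (X : ℝ) ^ (2 / 3 - κ)) ∧
    (∀ M : ℝ, 2 < M → ∃ κ : ℝ, 0 < κ ∧ ∀ᶠ X : ℕ in atTop,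
      ((semistableExceptions M X).ncard : ℝ) ≤ (X : ℝ) ^ (2 / 3 - κ) ∧
      ((exceptions M X).ncard : ℝ) ≤ (X : ℝ) ^ (2 / 3 - κ)) ∧
    (∀ ε : ℝ, 0 < ε → ∃ M : ℝ, 2 < M ∧ ∀ᶠ X : ℕ in atTop,
      ((semistableExceptions M X).ncard : ℝ) ≤ (X : ℝ) ^ (1 / 3 + ε) ∧
      ((exceptions M X).ncard : ℝ) ≤ (X : ℝ) ^ (1 / 2 + ε)) ∧
    (∀ E : WeierstrassCurve ℚ, E.Δ ≠ 0 → FullTwo E →
      ¬ DiscLt E ((oddConductor E : ℝ) ^ 2) ∧
      (Semistable E → ¬ DiscLt E ((conductor E : ℝ) ^ 2))) := by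
  have hT := tailHyp
  refine ⟨Pool.Agent.Lib.AbcT.prod_fP.1, Pool.Agent.Lib.AbcT.prod_eP.1, ?_, ?_, ?_, ?_, ?_, ?_, ?_,
    ?_⟩
  · rw [C₁_eq]
    have := Pool.Agent.Lib.AbcT.CS_pos
    positivity
  · rw [C₂_eq]
    exact Pool.Agent.Lib.AbcT.CE_pos
  · intro X
    exact ⟨Pool.Agent.Lib.AbcT.semi_classes_finite hT X, Pool.Agent.Lib.AbcT.curves_finite hT X⟩
  · obtain ⟨κ₁, hκ₁, h₁⟩ := Pool.Agent.Lib.AbcT.semi_classes_count hT
    obtain ⟨κ₂, hκ₂, h₂⟩ := Pool.Agent.Lib.AbcT.curves_count hT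
    refine ⟨min κ₁ κ₂, lt_min hκ₁ hκ₂, ?_⟩
    filter_upwards [h₁, h₂, eventually_ge_atTop 1] with X hX₁ hX₂ hX
    have hX' : (1 : ℝ) ≤ X := by exact_mod_cast hX
    rw [C₁_eq, C₂_eq]
    constructor
    · refine le_trans hX₁ (Real.rpow_le_rpow_of_exponent_le hX' ?_)
      have := min_le_left κ₁ κ₂
      linarith
    · refine le_trans hX₂ (Real.rpow_le_rpow_of_exponent_le hX' ?_)
      have := min_le_right κ₁ κ₂
      linarith
  · obtain ⟨κ₁, hκ₁, h₁⟩ := Pool.Agent.Lib.AbcT.semi_conductors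
    obtain ⟨κ₂, hκ₂, h₂⟩ := Pool.Agent.Lib.AbcT.twist_conductors
    refine ⟨min κ₁ κ₂, lt_min hκ₁ hκ₂, ?_⟩
    filter_upwards [h₁, h₂, eventually_ge_atTop 1] with X hX₁ hX₂ hX
    have hX' : (1 : ℝ) ≤ X := by exact_mod_cast hX
    have m₁ : (X : ℝ) ^ (2 / 3 - κ₁) ≤ (X : ℝ) ^ (2 / 3 - min κ₁ κ₂) :=
      Real.rpow_le_rpow_of_exponent_le hX' (by have := min_le_left κ₁ κ₂; linarith)
    have m₂ : (X : ℝ) ^ (2 / 3 - κ₂) ≤ (X : ℝ) ^ (2 / 3 - min κ₁ κ₂) :=
      Real.rpow_le_rpow_of_exponent_le hX' (by have := min_le_right κ₁ κ₂; linarith)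
    rw [C₁_eq, C₂_eq]
    exact ⟨hX₁.1.trans m₁, hX₁.2.trans m₁, hX₂.1.trans m₂, hX₂.2.trans m₂⟩
  · intro M hM
    obtain ⟨κ, hκ, h⟩ := Pool.Agent.Lib.AbcT.exc_count hT M hM
    refine ⟨κ, hκ, ?_⟩
    filter_upwards [h] with X hX
    exact ⟨hX.2, hX.1⟩
  · intro ε hε
    obtain ⟨M, hM, h⟩ := Pool.Agent.Lib.AbcT.exc_large hT ε hε
    refine ⟨M, hM, ?_⟩
    filter_upwards [h] with X hX
    exact ⟨hX.2, hX.1⟩
  · intro E hE h2
    constructor
    · rintro ⟨W, C, hW, hlt⟩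
      exact absurd hlt (not_lt.mpr (Pool.Agent.Lib.AbcT.cond_sq_le hE h2 W C hW))
    · rintro hs ⟨W, C, hW, hlt⟩
      exact absurd hlt (not_lt.mpr (Pool.Agent.Lib.AbcT.condAll_sq_le hE h2 hs W C hW))

end Pool.Agent.Results.MP_2ec8a3_nt.TwoTorsion
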